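import Mathlib

/-!
# Differentiation action on polynomials, and products of linear forms (algebra)
-/

namespace Pool.Agent.H7.Apolar

open MvPolynomial Finset

/-- The ring of polynomials in `n + 1` variables over the complex numbers. -/
abbrev Poly (n : ℕ) := MvPolynomial (Fin (n + 1)) ℂ

/-- The differential operator attached to the monomial with exponent vector `m`: the composition
of the (commuting) operators `(∂/∂x_i)^(m i)`. -/
noncomputable def dMon {n : ℕ} (m : Fin (n + 1) →₀ ℕ) : Module.End ℂ (Poly n) :=
  ((List.finRange (n + 1)).map
    (fun i => ((pderiv i).toLinearMap : Module.End ℂ (Poly n)) ^ m i)).prod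

/-- The action of polynomials on polynomials by differentiation: the linear map sending the
monomial `y^m` to the operator `∂^m`. -/
noncomputable def act (n : ℕ) : Poly n →ₗ[ℂ] Module.End ℂ (Poly n) :=
  (MvPolynomial.basisMonomials (Fin (n + 1)) ℂ).constr ℂ dMon

variable {n : ℕ}

theorem act_monomial (m : Fin (n + 1) →₀ ℕ) (c : ℂ) :
    act n (monomial m c) = c • dMon m := by
  have h : monomial m c = c • (MvPolynomial.basisMonomials (Fin (n + 1)) ℂ) m := by
    rw [MvPolynomial.coe_basisMonomials, MvPolynomial.smul_monomial, smul_eq_mul, mul_one]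
  rw [h, map_smul, act, Module.Basis.constr_basis]

theorem pderiv_comm (i j : Fin (n + 1)) :
    Commute ((pderiv i).toLinearMap : Module.End ℂ (Poly n)) (pderiv j).toLinearMap := by
  have h : ⁅(pderiv i : Derivation ℂ (Poly n) (Poly n)), (pderiv j : Derivation ℂ (Poly n) (Poly n))⁆ = 0 := by
    apply MvPolynomial.derivation_ext
    intro a
    rw [Derivation.commutator_apply, pderiv_X, pderiv_X]
    by_cases h1 : a = i <;> by_cases h2 : a = j
    · subst h1 h2; simp
    · subst h1; rw [Pi.single_eq_same, Pi.single_eq_of_ne h2]; simp
    · subst h2; rw [Pi.single_eq_same, Pi.single_eq_of_ne h1]; simp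
    · rw [Pi.single_eq_of_ne h2, Pi.single_eq_of_ne h1]; simp
  apply LinearMap.ext
  intro p
  change pderiv i (pderiv j p) = pderiv j (pderiv i p)
  have := congrArg (fun D : Derivation ℂ (Poly n) (Poly n) => D p) h
  simp only [Derivation.commutator_apply, Derivation.zero_apply] at this
  exact sub_eq_zero.1 this

theorem list_prod_mul {M : Type*} [Monoid M] {α : Type*} (f g : α → M)
    (hc : ∀ a b, Commute (f a) (g b)) (L : List α) :
    (L.map (fun a => f a * g a)).prod = (L.map f).prod * (L.map g).prod := by
  induction L with
  | nil => simp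
  | cons a L ih =>
    simp only [List.map_cons, List.prod_cons, ih]
    have h : Commute (L.map f).prod (g a) := by
      clear ih
      induction L with
      | nil => simp
      | cons b L ih' =>
        simp only [List.map_cons, List.prod_cons]
        exact (hc b a).mul_left ih'
    rw [mul_assoc, ← mul_assoc (g a), ← h.eq, mul_assoc, mul_assoc]

theorem dMon_add (m m' : Fin (n + 1) →₀ ℕ) : dMon (m + m') = dMon m * dMon m' := by
  unfold dMon
  rw [← list_prod_mul]
  · simp only [Finsupp.add_apply, pow_add]
  · intro a b
    exact ((pderiv_comm a b).pow_left _).pow_right _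

theorem dMon_zero : dMon (0 : Fin (n + 1) →₀ ℕ) = 1 := by
  unfold dMon
  simp

theorem dMon_single (i : Fin (n + 1)) :
    dMon (Finsupp.single i 1) = ((pderiv i).toLinearMap : Module.End ℂ (Poly n)) := by
  unfold dMon
  have : ∀ L : List (Fin (n + 1)), L.Nodup →
      (L.map (fun j => ((pderiv j).toLinearMap : Module.End ℂ (Poly n)) ^
        (Finsupp.single i 1 j))).prod = if i ∈ L then (pderiv i).toLinearMap else 1 := by
    intro L hL
    induction L with
    | nil => simp
    | cons b L ih =>
      rw [List.nodup_cons] at hL
      rw [List.map_cons, List.prod_cons, ih hL.2]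
      by_cases hb : i = b
      · subst hb
        simp [hL.1]
      · simp [hb]
  rw [this _ (List.nodup_finRange _)]
  simp

theorem act_mul_X (θ : Poly n) (i : Fin (n + 1)) :
    act n (θ * X i) = act n θ * (pderiv i).toLinearMap := by
  induction θ using MvPolynomial.induction_on' with
  | monomial m c =>
    have : (monomial m c : Poly n) * X i = monomial (m + Finsupp.single i 1) c := by
      rw [MvPolynomial.X, MvPolynomial.monomial_mul, mul_one]
    rw [this, act_monomial, act_monomial, dMon_add, dMon_single, smul_mul_assoc]
  | add p q hp hq => rw [add_mul, map_add, hp, hq, map_add, add_mul]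

theorem act_C (c : ℂ) : act n (C c) = c • 1 := by
  rw [MvPolynomial.C_apply, act_monomial, dMon_zero]

theorem act_one : act n 1 = 1 := by
  rw [← MvPolynomial.C_1, act_C, one_smul]

theorem act_X (i : Fin (n + 1)) : act n (X i) = (pderiv i).toLinearMap := by
  rw [← one_mul (X i), act_mul_X, act_one, one_mul]

theorem act_mul (θ η : Poly n) : act n (θ * η) = act n θ * act n η := by
  induction η using MvPolynomial.induction_on with
  | C a =>
    rw [act_C, mul_comm, ← MvPolynomial.smul_eq_C_mul, map_smul]
    simp
  | add p q hp hq => rw [mul_add, map_add, map_add, hp, hq, mul_add]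
  | mul_X p i hp => rw [← mul_assoc, act_mul_X, hp, act_mul_X, mul_assoc]

/-- Leibniz rule for the multiplication by a variable. -/
theorem act_X_mul (θ : Poly n) (a : Fin (n + 1)) (G : Poly n) :
    act n θ (X a * G) = X a * act n θ G + act n (pderiv a θ) G := by
  induction θ using MvPolynomial.induction_on generalizing G with
  | C c => simp [act_C]
  | add p q hp hq =>
    rw [map_add, map_add, map_add, LinearMap.add_apply, hp, hq, LinearMap.add_apply,
      LinearMap.add_apply]
    ring
  | mul_X p i hp =>
    have e : ∀ G, act n (p * X i) G = act n p (pderiv i G) := fun G => by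
      rw [act_mul_X]; rfl
    rw [e, e, Derivation.leibniz, Derivation.leibniz, map_add, smul_eq_mul, smul_eq_mul,
      smul_eq_mul, smul_eq_mul, hp, map_add, LinearMap.add_apply]
    have e2 : act n (X i * pderiv a p) G = act n (pderiv a p) (pderiv i G) := by
      rw [mul_comm, act_mul_X]; rfl
    rw [e2, pderiv_X, pderiv_X]
    by_cases h : a = i
    · subst h
      simp only [Pi.single_eq_same, mul_one]
      ring
    · rw [Pi.single_eq_of_ne (Ne.symm h), Pi.single_eq_of_ne h]
      simp only [mul_zero, map_zero, LinearMap.zero_apply]
      ring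

end Pool.Agent.H7.Apolar
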