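import Pool.Agent.H7.ApolarA

/-!
# Lower bound: forms of degree at most `n` do not kill products of many linear forms
-/

namespace Pool.Agent.H7.Apolar

open MvPolynomial Finset

variable {n : ℕ}

/-- The linear form `x_0 + t x_1 + ... + t^n x_n`. -/
noncomputable def lin (n : ℕ) (t : ℂ) : Poly n := ∑ a : Fin (n + 1), C (t ^ (a : ℕ)) * X a

/-- The derivative of `θ` in the direction `(1, t, ..., t^n)`. -/
noncomputable def dir (t : ℂ) (θ : Poly n) : Poly n :=
  ∑ a : Fin (n + 1), C (t ^ (a : ℕ)) * pderiv a θ

theorem act_C_mul (c : ℂ) (θ : Poly n) : act n (C c * θ) = c • act n θ := by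
  rw [← MvPolynomial.smul_eq_C_mul, map_smul]

theorem act_lin_mul (θ : Poly n) (t : ℂ) (G : Poly n) :
    act n θ (lin n t * G) = lin n t * act n θ G + act n (dir t θ) G := by
  unfold lin dir
  rw [Finset.sum_mul, map_sum, map_sum, LinearMap.sum_apply, Finset.sum_mul,
    ← Finset.sum_add_distrib]
  refine Finset.sum_congr rfl fun a _ => ?_
  rw [mul_assoc, ← MvPolynomial.smul_eq_C_mul, map_smul, act_X_mul, act_C_mul,
    LinearMap.smul_apply, smul_add, mul_assoc, ← MvPolynomial.smul_eq_C_mul (X a * _)]

theorem dir_homog {k : ℕ} {θ : Poly n} (h : θ.IsHomogeneous (k + 1)) (t : ℂ) :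
    (dir t θ).IsHomogeneous k := by
  unfold dir
  refine MvPolynomial.IsHomogeneous.sum _ _ _ fun a _ => ?_
  have := (h.pderiv (i := a))
  simpa using (MvPolynomial.isHomogeneous_C _ (t ^ (a : ℕ))).mul this

theorem eval_lin (p : Polynomial ℂ) (hp : p.natDegree < n + 1) (t : ℂ) :
    eval (fun a : Fin (n + 1) => p.coeff a) (lin n t) = p.eval t := by
  unfold lin
  rw [map_sum, Polynomial.eval_eq_sum_range' hp, Finset.sum_range]
  refine Finset.sum_congr rfl fun a _ => ?_
  rw [map_mul, eval_C, eval_X]
  ring

theorem dir_zero {ι : Type*} [DecidableEq ι] {t : ι → ℂ} (ht : Function.Injective t) (S : Finset ι)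
    (hS : n + 1 ≤ S.card) (θ : Poly n) (h : ∀ s ∈ S, dir (t s) θ = 0) (a : Fin (n + 1)) :
    pderiv a θ = 0 := by
  classical
  set P : Polynomial (Poly n) :=
    ∑ a : Fin (n + 1), Polynomial.C (pderiv a θ) * Polynomial.X ^ (a : ℕ) with hP
  have hdeg : P.natDegree < n + 1 := by
    refine lt_of_le_of_lt (Polynomial.natDegree_sum_le_of_forall_le _ _ (n := n) ?_)
      (Nat.lt_succ_self n)
    intro a _
    refine (Polynomial.natDegree_C_mul_X_pow_le _ _).trans ?_
    have := a.2
    omega
  have hzero : P = 0 := by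
    apply Polynomial.eq_zero_of_natDegree_lt_card_of_eval_eq_zero' P
      (S.image fun s => (C (t s) : Poly n))
    · intro x hx
      obtain ⟨s, hs, rfl⟩ := Finset.mem_image.1 hx
      rw [hP, Polynomial.eval_finsetSum]
      rw [← h s hs]
      unfold dir
      refine Finset.sum_congr rfl fun a _ => ?_
      rw [Polynomial.eval_mul, Polynomial.eval_C, Polynomial.eval_pow, Polynomial.eval_X,
        mul_comm, map_pow]
    · rw [Finset.card_image_of_injective]
      · omega
      · exact (MvPolynomial.C_injective _ _).comp ht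
  have : P.coeff a = pderiv a θ := by
    rw [hP, Polynomial.finsetSum_coeff, Finset.sum_eq_single a]
    · simp
    · intro b _ hb
      rw [Polynomial.coeff_C_mul, Polynomial.coeff_X_pow, if_neg, mul_zero]
      intro h'
      exact hb (Fin.ext h'.symm)
    · intro h'; exact absurd (Finset.mem_univ a) h'
  rw [← this, hzero, Polynomial.coeff_zero]

theorem lower {ι : Type*} [DecidableEq ι] {t : ι → ℂ} (ht : Function.Injective t) :
    ∀ (k : ℕ) (I S : Finset ι), Disjoint I S → I.card + k ≤ n → n + k ≤ S.card →
    ∀ θ : Poly n, θ.IsHomogeneous k →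
    (∀ p : Fin (n + 1) → ℂ, (∀ i ∈ I, eval p (lin n (t i)) = 0) →
      eval p (act n θ (∏ s ∈ S, lin n (t s))) = 0) → θ = 0 := by
  intro k
  induction k with
  | zero =>
    intro I S hd hI hS θ hθ h
    have hc : θ = C (coeff 0 θ) :=
      MvPolynomial.totalDegree_eq_zero_iff_eq_C.1
        ((MvPolynomial.totalDegree_zero_iff_isHomogeneous _).2 hθ)
    set Q : Polynomial ℂ := ∏ i ∈ I, (Polynomial.X - Polynomial.C (t i)) with hQ
    have hQd : Q.natDegree < n + 1 := by
      rw [hQ, Polynomial.natDegree_finsetProd_X_sub_C_eq_card]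
      omega
    have h0 := h (fun a => Q.coeff a) (by
      intro i hi
      rw [eval_lin Q hQd, hQ, Polynomial.eval_prod]
      exact Finset.prod_eq_zero hi (by simp))
    rw [hc, act_C, LinearMap.smul_apply, Module.End.one_apply, MvPolynomial.smul_eval,
      map_prod] at h0
    rcases mul_eq_zero.1 h0 with h1 | h1
    · rw [hc, h1, map_zero]
    · exfalso
      obtain ⟨s, hs, h2⟩ := Finset.prod_eq_zero_iff.1 h1
      rw [eval_lin Q hQd, hQ, Polynomial.eval_prod] at h2
      obtain ⟨i, hi, h3⟩ := Finset.prod_eq_zero_iff.1 h2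
      rw [Polynomial.eval_sub, Polynomial.eval_X, Polynomial.eval_C, sub_eq_zero] at h3
      have := ht h3
      subst this
      exact Finset.disjoint_left.1 hd hi hs
  | succ k ih =>
    intro I S hd hI hS θ hθ h
    have key : ∀ s ∈ S, dir (t s) θ = 0 := by
      intro s hs
      refine ih (insert s I) (S.erase s) ?_ ?_ ?_ _ (dir_homog hθ _) ?_
      · rw [Finset.disjoint_insert_left]
        exact ⟨Finset.notMem_erase s S, hd.mono_right (Finset.erase_subset s S)⟩
      · have := Finset.card_insert_le s I
        omega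
      · rw [Finset.card_erase_of_mem hs]
        omega
      · intro p hp
        have h1 := h p fun i hi => hp i (Finset.mem_insert_of_mem hi)
        rw [← Finset.mul_prod_erase S _ hs, act_lin_mul, map_add, map_mul,
          hp s (Finset.mem_insert_self s I), zero_mul, zero_add] at h1
        exact h1
    have hpd := dir_zero ht S (by omega) θ key
    have he := hθ.sum_X_mul_pderiv
    simp only [hpd, mul_zero, Finset.sum_const_zero] at he
    have := he.symm
    rw [nsmul_eq_mul] at this
    rcases mul_eq_zero.1 this with h1 | h1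
    · exfalso
      have : ((k + 1 : ℕ) : Poly n) ≠ 0 := Nat.cast_ne_zero.2 (Nat.succ_ne_zero k)
      exact this h1
    · exact h1

end Pool.Agent.H7.Apolar
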