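import Mathlib

/-!
# Iterated derivatives of products, and a determinant identity
-/

namespace Pool.Agent.H7.Apolar

open Finset

section formula

variable {R : Type*} [CommRing R] [Algebra ℂ R] {κ ι : Type*} [Fintype ι] [DecidableEq ι]

/-- Iterated application of derivations `D (a 0)`, then `D (a 1)`, ... -/
noncomputable def itD (D : κ → Derivation ℂ R R) : (k : ℕ) → (Fin k → κ) → R → R
  | 0, _, Q => Q
  | k + 1, a, Q => itD D k (fun i => a i.succ) (D (a 0) Q)

theorem itD_zero (D : κ → Derivation ℂ R R) (a : Fin 0 → κ) (Q : R) : itD D 0 a Q = Q := rfl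

theorem itD_succ (D : κ → Derivation ℂ R R) (k : ℕ) (a : Fin (k + 1) → κ) (Q : R) :
    itD D (k + 1) a Q = itD D k (fun i => a i.succ) (D (a 0) Q) := rfl

theorem itD_sum (D : κ → Derivation ℂ R R) (k : ℕ) (a : Fin k → κ) {α : Type*} (s : Finset α)
    (f : α → R) : itD D k a (∑ x ∈ s, f x) = ∑ x ∈ s, itD D k a (f x) := by
  induction k generalizing f with
  | zero => rfl
  | succ k ih =>
    rw [itD_succ, map_sum, ih]
    rfl

theorem itD_const_mul (D : κ → Derivation ℂ R R) (u : R) (hu : ∀ b, D b u = 0) (k : ℕ)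
    (a : Fin k → κ) (Q : R) : itD D k a (u * Q) = u * itD D k a Q := by
  induction k generalizing Q with
  | zero => rfl
  | succ k ih =>
    rw [itD_succ, itD_succ, Derivation.leibniz, hu, smul_zero, add_zero, smul_eq_mul, ih]

omit [Fintype ι] in
theorem D_prod (D : Derivation ℂ R R) (φ u : ι → R) (h : ∀ s, D (φ s) = u s) (S : Finset ι) :
    D (∏ s ∈ S, φ s) = ∑ s ∈ S, u s * ∏ t ∈ S.erase s, φ t := by
  induction S using Finset.induction_on with
  | empty => simp
  | insert s S hs ih =>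
    rw [Finset.prod_insert hs, Derivation.leibniz, ih, h, Finset.sum_insert hs,
      Finset.erase_insert hs, smul_eq_mul, smul_eq_mul, add_comm, mul_comm (∏ s ∈ S, φ s),
      Finset.mul_sum]
    congr 1
    refine Finset.sum_congr rfl fun r hr => ?_
    have hrs : r ≠ s := by rintro rfl; exact hs hr
    rw [Finset.erase_insert_of_ne hrs.symm, Finset.prod_insert]
    · ring
    · intro h'
      exact hs (Finset.mem_of_mem_erase h')

theorem formula (D : κ → Derivation ℂ R R) (φ : ι → R) (u : ι → κ → R)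
    (h : ∀ b s, D b (φ s) = u s b) (hu : ∀ b s c, D b (u s c) = 0) (k : ℕ) (a : Fin k → κ)
    (S : Finset ι) :
    itD D k a (∏ s ∈ S, φ s) = ∑ f : Fin k → ι,
      if (Function.Injective f ∧ ∀ i, f i ∈ S) then
        (∏ i, u (f i) (a i)) * ∏ t ∈ S \ univ.image f, φ t else 0 := by
  classical
  induction k generalizing S with
  | zero =>
    rw [itD_zero, Fintype.sum_unique, if_pos]
    · simp
    · exact ⟨Function.injective_of_subsingleton _, fun i => i.elim0⟩
  | succ k ih =>
    rw [itD_succ, D_prod (D (a 0)) φ (fun s => u s (a 0)) (fun s => h _ _), itD_sum]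
    rw [← (Fin.consEquiv (fun _ : Fin (k + 1) => ι)).sum_comp, Fintype.sum_prod_type,
      ← Finset.sum_subset (Finset.subset_univ S)]
    · refine Finset.sum_congr rfl fun s hs => ?_
      rw [itD_const_mul D _ (fun b => hu b s (a 0)), ih, Finset.mul_sum]
      refine Finset.sum_congr rfl fun f _ => ?_
      rw [mul_ite, mul_zero]
      have hiff : (Function.Injective f ∧ ∀ i, f i ∈ S.erase s) ↔
          (Function.Injective (Fin.consEquiv (fun _ : Fin (k + 1) => ι) (s, f)) ∧
            ∀ i, (Fin.consEquiv (fun _ : Fin (k + 1) => ι) (s, f)) i ∈ S) := by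
        change _ ↔ (Function.Injective (Fin.cons s f : Fin (k + 1) → ι) ∧
            ∀ i, (Fin.cons s f : Fin (k + 1) → ι) i ∈ S)
        rw [Fin.cons_injective_iff, Fin.forall_fin_succ]
        simp only [Fin.cons_zero, Fin.cons_succ, Finset.mem_erase, Set.mem_range, not_exists]
        constructor
        · rintro ⟨h1, h2⟩
          exact ⟨⟨fun i => (h2 i).1, h1⟩, hs, fun i => (h2 i).2⟩
        · rintro ⟨⟨h1, h2⟩, _, h4⟩
          exact ⟨h2, fun i => ⟨h1 i, h4 i⟩⟩
      by_cases hc : (Function.Injective f ∧ ∀ i, f i ∈ S.erase s)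
      · rw [if_pos hc, if_pos (hiff.1 hc)]
        change _ = (∏ i, u ((Fin.cons s f : Fin (k + 1) → ι) i) (a i)) *
          ∏ t ∈ S \ univ.image (Fin.cons s f : Fin (k + 1) → ι), φ t
        rw [Fin.prod_univ_succ]
        simp only [Fin.cons_zero, Fin.cons_succ]
        rw [mul_assoc]
        congr 2
        refine Finset.prod_congr ?_ fun _ _ => rfl
        ext t
        simp only [Finset.mem_sdiff, Finset.mem_erase, Finset.mem_image, Finset.mem_univ,
          true_and, not_exists]
        constructor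
        · rintro ⟨⟨h1, h2⟩, h3⟩
          refine ⟨h2, fun i => ?_⟩
          refine Fin.cases ?_ (fun j => ?_) i
          · simpa using Ne.symm h1
          · simpa using h3 j
        · rintro ⟨h1, h2⟩
          refine ⟨⟨?_, h1⟩, fun i => ?_⟩
          · have := h2 0
            simpa using Ne.symm this
          · have := h2 i.succ
            simpa using this
      · rw [if_neg hc, if_neg (fun h' => hc (hiff.2 h'))]
    · intro s _ hs
      refine Finset.sum_eq_zero fun f _ => ?_
      rw [if_neg]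
      rintro ⟨_, h2⟩
      have := h2 0
      exact hs this

end formula

section det

variable {R : Type*} [CommRing R] [IsDomain R] [Algebra ℂ R] {κ ι : Type*} [Fintype ι]
  [DecidableEq ι]

/-- The determinant identity. -/
theorem det_identity (D : κ → Derivation ℂ R R) (φ : ι → R) (u : ι → κ → R)
    (h : ∀ b s, D b (φ s) = u s b) (hu : ∀ b s c, D b (u s c) = 0) (hφ : ∀ s, φ s ≠ 0)
    (k w : ℕ) (v : ι → R) (e : Fin k → Fin k → κ)
    (he : ∀ i j s, u s (e i j) = v s ^ ((i : ℕ) + j + w)) :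
    (∏ s, φ s) ^ k * ∑ σ : Equiv.Perm (Fin k), (Equiv.Perm.sign σ : ℤ) •
        itD D k (fun i => e (σ i) i) (∏ s, φ s) =
      (∏ s, φ s) * (Matrix.of fun i j : Fin k =>
        ∑ s, v s ^ ((i : ℕ) + j + w) * ∏ t ∈ univ.erase s, φ t).det := by
  classical
  have hpe : ∀ s, φ s * ∏ t ∈ univ.erase s, φ t = ∏ t, φ t := fun s =>
    Finset.mul_prod_erase univ φ (Finset.mem_univ s)
  have hinj : ∀ f : Fin k → ι, Function.Injective f →
      (∏ s, φ s) ^ k * ∏ t ∈ univ \ univ.image f, φ t =
        (∏ s, φ s) * ∏ i, ∏ t ∈ univ.erase (f i), φ t := by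
    intro f hf
    have h1 : (∏ i, φ (f i)) ≠ 0 := Finset.prod_ne_zero_iff.2 fun i _ => hφ _
    apply mul_left_cancel₀ h1
    have h2 : (∏ i, φ (f i)) * ∏ t ∈ univ \ univ.image f, φ t = ∏ t, φ t := by
      rw [← Finset.prod_image (s := univ) (g := f) (f := φ) (fun a _ b _ hab => hf hab), mul_comm]
      exact Finset.prod_sdiff (Finset.subset_univ _)
    have h3 : (∏ i, φ (f i)) * ∏ i, ∏ t ∈ univ.erase (f i), φ t = (∏ t, φ t) ^ k := by
      rw [← Finset.prod_mul_distrib]
      simp only [hpe, Finset.prod_const, Finset.card_univ, Fintype.card_fin]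
    calc (∏ i, φ (f i)) * ((∏ s, φ s) ^ k * ∏ t ∈ univ \ univ.image f, φ t)
        = (∏ s, φ s) ^ k * ((∏ i, φ (f i)) * ∏ t ∈ univ \ univ.image f, φ t) := by ring
      _ = (∏ s, φ s) * (∏ t, φ t) ^ k := by rw [h2]; ring
      _ = (∏ i, φ (f i)) * ((∏ s, φ s) * ∏ i, ∏ t ∈ univ.erase (f i), φ t) := by
          rw [← h3]; ring
  rw [Matrix.det_apply, Finset.mul_sum, Finset.mul_sum]
  have hL : ∀ σ : Equiv.Perm (Fin k), (∏ s, φ s) ^ k * ((Equiv.Perm.sign σ : ℤ) •
        itD D k (fun i => e (σ i) i) (∏ s, φ s)) =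
      ∑ f : Fin k → ι, if Function.Injective f then (∏ s, φ s) * ((Equiv.Perm.sign σ : ℤ) •
        ((∏ i, v (f i) ^ ((σ i : ℕ) + i + w)) * ∏ i, ∏ t ∈ univ.erase (f i), φ t)) else 0 := by
    intro σ
    rw [formula D φ u h hu, mul_smul_comm, Finset.mul_sum, Finset.smul_sum]
    refine Finset.sum_congr rfl fun f _ => ?_
    by_cases hf : Function.Injective f
    · rw [if_pos ⟨hf, fun i => Finset.mem_univ _⟩, if_pos hf, mul_smul_comm]
      congr 1
      simp only [he]
      calc (∏ s, φ s) ^ k * ((∏ i, v (f i) ^ ((σ i : ℕ) + i + w)) *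
            ∏ t ∈ univ \ univ.image f, φ t)
          = (∏ i, v (f i) ^ ((σ i : ℕ) + i + w)) * ((∏ s, φ s) ^ k *
            ∏ t ∈ univ \ univ.image f, φ t) := by ring
        _ = _ := by rw [hinj f hf]; ring
    · rw [if_neg (fun h' => hf h'.1), if_neg hf, mul_zero, smul_zero]
  have hR : ∀ σ : Equiv.Perm (Fin k), (∏ s, φ s) * (Equiv.Perm.sign σ • ∏ i,
        (Matrix.of fun i j : Fin k =>
          ∑ s, v s ^ ((i : ℕ) + j + w) * ∏ t ∈ univ.erase s, φ t) (σ i) i) =
      ∑ f : Fin k → ι, (∏ s, φ s) * ((Equiv.Perm.sign σ : ℤ) •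
        ((∏ i, v (f i) ^ ((σ i : ℕ) + i + w)) * ∏ i, ∏ t ∈ univ.erase (f i), φ t)) := by
    intro σ
    simp only [Matrix.of_apply]
    rw [Finset.prod_univ_sum, ← Finset.mul_sum, Fintype.piFinset_univ]
    congr 1
    rw [Units.smul_def, Finset.smul_sum]
    refine Finset.sum_congr rfl fun f _ => ?_
    rw [Finset.prod_mul_distrib]
  rw [Finset.sum_congr rfl fun σ _ => hL σ, Finset.sum_congr rfl fun σ _ => hR σ]
  conv_lhs => rw [Finset.sum_comm]
  conv_rhs => rw [Finset.sum_comm]
  refine Finset.sum_congr rfl fun f _ => ?_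
  by_cases hf : Function.Injective f
  · simp only [if_pos hf]
  · simp only [if_neg hf, Finset.sum_const_zero]
    symm
    rw [← Finset.mul_sum]
    have hz : ∑ σ : Equiv.Perm (Fin k), (Equiv.Perm.sign σ : ℤ) •
        ((∏ i, v (f i) ^ ((σ i : ℕ) + i + w)) * ∏ i, ∏ t ∈ univ.erase (f i), φ t) =
        ((Matrix.of fun j i : Fin k => v (f i) ^ (j : ℕ)).det * ∏ i, v (f i) ^ ((i : ℕ) + w)) *
          ∏ i, ∏ t ∈ univ.erase (f i), φ t := by
      rw [Matrix.det_apply, Finset.sum_mul, Finset.sum_mul]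
      refine Finset.sum_congr rfl fun σ _ => ?_
      rw [Units.smul_def, smul_mul_assoc, smul_mul_assoc]
      have hpp : ∏ i, v (f i) ^ ((σ i : ℕ) + i + w) = (∏ i,
          (Matrix.of fun j i : Fin k => v (f i) ^ (j : ℕ)) (σ i) i) *
            ∏ i, v (f i) ^ ((i : ℕ) + w) := by
        rw [← Finset.prod_mul_distrib]
        exact Finset.prod_congr rfl fun i _ => by rw [Matrix.of_apply, ← pow_add, add_assoc]
      rw [hpp]
    rw [hz]
    unfold Function.Injective at hf
    push Not at hf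
    obtain ⟨i, i', hii, hne⟩ := hf
    rw [Matrix.det_zero_of_column_eq hne (fun j => by rw [Matrix.of_apply, Matrix.of_apply, hii])]
    ring

end det

end Pool.Agent.H7.Apolar
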