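import Pool.Agent.H7.ApolarB
import Pool.Agent.H7.ApolarC

/-!
# Products of Hankel determinants kill cyclic products of linear forms
-/

namespace Pool.Agent.H7.Apolar

open MvPolynomial Finset

variable {n : ℕ}

/-- Coefficientwise partial derivative on polynomials with coefficients in `Poly n`. -/
noncomputable def cD (b : Fin (n + 1)) : Derivation ℂ (Polynomial (Poly n)) (Polynomial (Poly n)) :=
  PolynomialModule.equivPolynomialSelf.toLinearMap.compDer (pderiv b).mapCoeffs

theorem cD_coeff (b : Fin (n + 1)) (Q : Polynomial (Poly n)) (j : ℕ) :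
    (cD b Q).coeff j = pderiv b (Q.coeff j) := rfl

theorem cD_C (b : Fin (n + 1)) (p : Poly n) :
    cD b (Polynomial.C p) = Polynomial.C (pderiv b p) := by
  ext1 j
  rw [cD_coeff, Polynomial.coeff_C, Polynomial.coeff_C]
  split_ifs <;> simp

theorem cD_X (b : Fin (n + 1)) : cD b (Polynomial.X : Polynomial (Poly n)) = 0 := by
  ext1 j
  rw [cD_coeff, Polynomial.coeff_X]
  split_ifs <;> simp

/-- The element `t γ`. -/
noncomputable def vv (n : ℕ) (t : ℂ) : Polynomial (Poly n) := Polynomial.C (C t) * Polynomial.X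

/-- `x_0 + x_1 (t γ) + ... + x_n (t γ)^n`. -/
noncomputable def ph (n : ℕ) (t : ℂ) : Polynomial (Poly n) :=
  ∑ a : Fin (n + 1), Polynomial.C (X a) * vv n t ^ (a : ℕ)

theorem cD_vv (b : Fin (n + 1)) (t : ℂ) : cD b (vv n t) = 0 := by
  unfold vv
  rw [Derivation.leibniz, cD_X, cD_C, MvPolynomial.pderiv_C]
  simp

theorem cD_vv_pow (b : Fin (n + 1)) (t : ℂ) (m : ℕ) : cD b (vv n t ^ m) = 0 := by
  rw [Derivation.leibniz_pow, cD_vv]
  simp

theorem cD_ph (b : Fin (n + 1)) (t : ℂ) : cD b (ph n t) = vv n t ^ (b : ℕ) := by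
  unfold ph
  rw [map_sum, Finset.sum_eq_single b]
  · rw [Derivation.leibniz, cD_vv_pow, cD_C, pderiv_X, Pi.single_eq_same]
    simp
  · intro a _ hab
    rw [Derivation.leibniz, cD_vv_pow, cD_C, pderiv_X, Pi.single_eq_of_ne hab]
    simp
  · intro h; exact absurd (Finset.mem_univ b) h

theorem itD_coeff (k : ℕ) (a : Fin k → Fin (n + 1)) (Q : Polynomial (Poly n)) (j : ℕ) :
    (itD cD k a Q).coeff j = act n (∏ i, X (a i)) (Q.coeff j) := by
  induction k generalizing Q with
  | zero =>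
    rw [itD_zero, Finset.univ_eq_empty, Finset.prod_empty, act_one]
    rfl
  | succ k ih =>
    rw [itD_succ, ih, Fin.prod_univ_succ, mul_comm, act_mul_X, cD_coeff]
    rfl

/-- The Hankel determinant `det (y_(i+j+w))`, `0 ≤ i, j < k`. -/
noncomputable def hank (k w : ℕ) (hw : 2 * k + w ≤ n + 2) : Poly n :=
  (Matrix.of fun i j : Fin k => (X ⟨(i : ℕ) + j + w, by have := i.2; have := j.2; omega⟩ : Poly n)).det

theorem hank_coeff (k w : ℕ) (hw : 2 * k + w ≤ n + 2) (P : Polynomial (Poly n)) (j : ℕ) :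
    (∑ σ : Equiv.Perm (Fin k), (Equiv.Perm.sign σ : ℤ) •
      itD cD k (fun i => (⟨((σ i : Fin k) : ℕ) + i + w, by
        have := i.2; have := (σ i).2; omega⟩ : Fin (n + 1))) P).coeff j =
      act n (hank k w hw) (P.coeff j) := by
  unfold hank
  rw [Matrix.det_apply, map_sum, LinearMap.sum_apply, Polynomial.finsetSum_coeff]
  refine Finset.sum_congr rfl fun σ _ => ?_
  rw [Units.smul_def, map_zsmul, LinearMap.smul_apply, Polynomial.coeff_smul, itD_coeff]
  rfl

theorem ph_coeff_zero (t : ℂ) : (ph n t).coeff 0 = X 0 := by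
  unfold ph vv
  rw [Polynomial.finsetSum_coeff, Finset.sum_eq_single 0]
  · simp
  · intro a _ ha
    rw [Polynomial.coeff_C_mul, mul_pow, ← map_pow, Polynomial.coeff_C_mul, Polynomial.coeff_X_pow,
      if_neg, mul_zero, mul_zero]
    intro h
    exact ha (Fin.ext h.symm)
  · intro h; exact absurd (Finset.mem_univ 0) h

theorem ph_ne_zero (t : ℂ) : ph n t ≠ 0 := by
  intro h
  have := ph_coeff_zero (n := n) t
  rw [h, Polynomial.coeff_zero] at this
  exact MvPolynomial.X_ne_zero 0 this.symm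

theorem ph_natDegree_le (t : ℂ) : (ph n t).natDegree ≤ n := by
  unfold ph vv
  refine Polynomial.natDegree_sum_le_of_forall_le _ _ fun a _ => ?_
  rw [mul_pow, ← map_pow, ← mul_assoc, ← map_mul]
  refine (Polynomial.natDegree_C_mul_X_pow_le _ _).trans ?_
  have := a.2
  omega

theorem ph_natDegree {t : ℂ} (ht : t ≠ 0) : (ph n t).natDegree = n := by
  refine le_antisymm (ph_natDegree_le t) ?_
  refine Polynomial.le_natDegree_of_ne_zero ?_
  have h : (ph n t).coeff n = X (Fin.last n) * C t ^ n := by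
    unfold ph vv
    rw [Polynomial.finsetSum_coeff, Finset.sum_eq_single (Fin.last n)]
    · rw [Polynomial.coeff_C_mul, mul_pow, ← map_pow, Polynomial.coeff_C_mul,
        Polynomial.coeff_X_pow, if_pos (Fin.val_last n).symm, mul_one, Fin.val_last]
    · intro a _ ha
      rw [Polynomial.coeff_C_mul, mul_pow, ← map_pow, Polynomial.coeff_C_mul,
        Polynomial.coeff_X_pow, if_neg, mul_zero, mul_zero]
      intro h
      exact ha (Fin.ext h.symm)
    · intro h; exact absurd (Finset.mem_univ _) h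
  rw [h]
  refine mul_ne_zero (MvPolynomial.X_ne_zero _) (pow_ne_zero _ ?_)
  rw [Ne, MvPolynomial.C_eq_zero]
  exact ht

section rot

variable {ι : Type*} [Fintype ι] [DecidableEq ι] (t : ι → ℂ)

/-- Entries of the Hankel matrix. -/
noncomputable def entry (n : ℕ) (a : ℕ) : Polynomial (Poly n) :=
  ∑ s, vv n (t s) ^ a * ∏ r ∈ univ.erase s, ph n (t r)

variable {t}

omit [DecidableEq ι] [Fintype ι] in
theorem sum_comp' (S : Finset ι) (f : ι → Polynomial (Poly n)) (q : Polynomial (Poly n)) :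
    (∑ s ∈ S, f s).comp q = ∑ s ∈ S, (f s).comp q :=
  map_sum (Polynomial.compRingHom q) f S

theorem entry_rot {ω : ℂ} (e : ι ≃ ι) (he : ∀ s, t (e s) = ω * t s) (a j : ℕ) :
    (entry t n a).coeff j * C ω ^ j = (entry t n a).coeff j := by
  rw [← Polynomial.comp_C_mul_X_coeff]
  congr 1
  unfold entry
  rw [sum_comp']
  have hv : ∀ s, (vv n (t s)).comp (Polynomial.C (C ω) * Polynomial.X) = vv n (t (e s)) := by
    intro s
    unfold vv
    rw [he]
    simp
    ring
  have hp : ∀ s, (ph n (t s)).comp (Polynomial.C (C ω) * Polynomial.X) = ph n (t (e s)) := by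
    intro s
    unfold ph
    rw [sum_comp']
    refine Finset.sum_congr rfl fun a _ => ?_
    rw [Polynomial.mul_comp, Polynomial.pow_comp, hv, Polynomial.C_comp]
  rw [← e.sum_comp (fun s => vv n (t s) ^ a * ∏ r ∈ univ.erase s, ph n (t r))]
  refine Finset.sum_congr rfl fun s _ => ?_
  rw [Polynomial.mul_comp, Polynomial.pow_comp, hv, Polynomial.prod_comp]
  congr 1
  have : univ.erase (e s) = (univ.erase s).map e.toEmbedding := by
    rw [Finset.map_erase]
    simp
  rw [this, Finset.prod_map]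
  exact Finset.prod_congr rfl fun r _ => hp r

theorem entry_coeff_ne {d : ℕ} {ω : ℂ} (hω : IsPrimitiveRoot ω d) (e : ι ≃ ι)
    (he : ∀ s, t (e s) = ω * t s) (a j : ℕ) (hj : ¬ d ∣ j) : (entry t n a).coeff j = 0 := by
  have h := entry_rot (n := n) e he a j
  have h2 : (entry t n a).coeff j * (C ω ^ j - 1) = 0 := by rw [mul_sub, h, mul_one, sub_self]
  rcases mul_eq_zero.1 h2 with h3 | h3
  · exact h3
  · exfalso
    rw [sub_eq_zero, ← map_pow, ← MvPolynomial.C_1] at h3
    exact hj (hω.dvd_of_pow_eq_one _ (MvPolynomial.C_injective _ _ h3))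

theorem entry_dvd {d : ℕ} {ω : ℂ} (hω : IsPrimitiveRoot ω d) (e : ι ≃ ι)
    (he : ∀ s, t (e s) = ω * t s) (a : ℕ) (ha : 1 ≤ a) :
    (Polynomial.X : Polynomial (Poly n)) ^ d ∣ entry t n a := by
  rw [Polynomial.X_pow_dvd_iff]
  intro j hj
  rcases Nat.eq_zero_or_pos j with rfl | hj0
  · rw [Polynomial.coeff_zero_eq_eval_zero]
    unfold entry
    rw [Polynomial.eval_finsetSum]
    refine Finset.sum_eq_zero fun s _ => ?_
    rw [Polynomial.eval_mul, Polynomial.eval_pow]
    unfold vv
    rw [Polynomial.eval_mul, Polynomial.eval_X, mul_zero, zero_pow (by omega), zero_mul]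
  · exact entry_coeff_ne hω e he a j fun h => by have := Nat.le_of_dvd hj0 h; omega

theorem entry_deg_le (a : ℕ) :
    (entry t n a).natDegree ≤ a + n * (Fintype.card ι - 1) := by
  unfold entry
  refine Polynomial.natDegree_sum_le_of_forall_le _ _ fun s _ => ?_
  refine Polynomial.natDegree_mul_le.trans (Nat.add_le_add ?_ ?_)
  · unfold vv
    rw [mul_pow, ← map_pow]
    exact Polynomial.natDegree_C_mul_X_pow_le _ _
  · refine (Polynomial.natDegree_prod_le _ _).trans ?_
    refine (Finset.sum_le_sum fun r _ => ph_natDegree_le (n := n) (t r)).trans ?_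
    rw [Finset.sum_const, Finset.card_erase_of_mem (Finset.mem_univ s), Finset.card_univ,
      smul_eq_mul, mul_comm]

theorem entry_deg {d : ℕ} (hd : 0 < d) (hcard : Fintype.card ι = d) {ω : ℂ}
    (hω : IsPrimitiveRoot ω d) (e : ι ≃ ι)
    (he : ∀ s, t (e s) = ω * t s) (a : ℕ) (ha : a < n) :
    (entry t n a).natDegree ≤ (n - 1) * d := by
  rw [Polynomial.natDegree_le_iff_coeff_eq_zero]
  intro N hN
  by_cases hdv : d ∣ N
  · apply Polynomial.coeff_eq_zero_of_natDegree_lt
    refine lt_of_le_of_lt (entry_deg_le a) ?_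
    obtain ⟨m, rfl⟩ := hdv
    have h1 : n - 1 < m := by
      rw [mul_comm] at hN
      exact lt_of_mul_lt_mul_left hN (Nat.zero_le d)
    have h2 : n ≤ m := by omega
    rw [hcard]
    calc a + n * (d - 1) < n + n * (d - 1) := by omega
      _ = n * d := by
        obtain ⟨d', rfl⟩ : ∃ d', d = d' + 1 := ⟨d - 1, by omega⟩
        simp only [Nat.add_sub_cancel]
        ring
      _ ≤ m * d := Nat.mul_le_mul_right _ h2
      _ = d * m := mul_comm _ _
  · exact entry_coeff_ne hω e he a N hdv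

theorem kill_low {d : ℕ} {ω : ℂ} (hω : IsPrimitiveRoot ω d) (e : ι ≃ ι)
    (he : ∀ s, t (e s) = ω * t s) (k : ℕ) (hk : 2 * k + 1 ≤ n + 2) (j : ℕ) (hj : j < d * k) :
    act n (hank k 1 hk) ((∏ s, ph n (t s)).coeff j) = 0 := by
  have hid := det_identity (ι := ι) (R := Polynomial (Poly n)) cD (fun s => ph n (t s))
    (fun s b => vv n (t s) ^ (b : ℕ)) (fun b s => cD_ph b (t s)) (fun b s c => cD_vv_pow b (t s) _)
    (fun s => ph_ne_zero (t s)) k 1 (fun s => vv n (t s))
    (fun i j => ⟨(i : ℕ) + j + 1, by have := i.2; have := j.2; omega⟩) (fun i j s => rfl)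
  rw [← hank_coeff k 1 hk]
  have hX : ¬ (Polynomial.X : Polynomial (Poly n)) ∣ ∏ s, ph n (t s) := by
    rw [Polynomial.X_dvd_iff, Polynomial.coeff_zero_prod]
    refine Finset.prod_ne_zero_iff.2 fun s _ => ?_
    rw [ph_coeff_zero]
    exact MvPolynomial.X_ne_zero 0
  have hdet : (Polynomial.X : Polynomial (Poly n)) ^ (d * k) ∣ (Matrix.of fun i j : Fin k =>
        ∑ s, vv n (t s) ^ ((i : ℕ) + j + 1) * ∏ r ∈ univ.erase s, ph n (t r)).det := by
    rw [Matrix.det_apply]
    refine Finset.dvd_sum fun σ _ => ?_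
    rw [Units.smul_def]
    refine dvd_zsmul_of_dvd _ ?_
    have : (Polynomial.X : Polynomial (Poly n)) ^ (d * k) =
        ∏ i : Fin k, (Polynomial.X : Polynomial (Poly n)) ^ d := by
      rw [Finset.prod_const, Finset.card_univ, Fintype.card_fin, pow_mul]
    rw [this]
    refine Finset.prod_dvd_prod_of_dvd _ _ fun i _ => ?_
    rw [Matrix.of_apply]
    exact entry_dvd hω e he _ (by omega)
  have hdiv : (Polynomial.X : Polynomial (Poly n)) ^ (d * k) ∣
      (∑ σ : Equiv.Perm (Fin k), (Equiv.Perm.sign σ : ℤ) •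
      itD cD k (fun i => (⟨((σ i : Fin k) : ℕ) + i + 1, by
        have := i.2; have := (σ i).2; omega⟩ : Fin (n + 1))) (∏ s, ph n (t s))) := by
    have h1 : (Polynomial.X : Polynomial (Poly n)) ^ (d * k) ∣ (∏ s, ph n (t s)) ^ k *
        (∑ σ : Equiv.Perm (Fin k), (Equiv.Perm.sign σ : ℤ) •
      itD cD k (fun i => (⟨((σ i : Fin k) : ℕ) + i + 1, by
        have := i.2; have := (σ i).2; omega⟩ : Fin (n + 1))) (∏ s, ph n (t s))) := by
      rw [hid]
      exact Dvd.dvd.mul_left hdet _
    exact (Polynomial.prime_X).pow_dvd_of_dvd_mul_left _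
      (fun h => hX ((Polynomial.prime_X).dvd_of_dvd_pow h)) h1
  exact (Polynomial.X_pow_dvd_iff.1 hdiv) j hj

omit [DecidableEq ι] in
theorem prod_deg (h0 : ∀ s, t s ≠ 0) :
    (∏ s, ph n (t s)).natDegree = n * Fintype.card ι := by
  rw [Polynomial.natDegree_prod _ _ fun s _ => ph_ne_zero (t s)]
  simp only [ph_natDegree (h0 _), Finset.sum_const, Finset.card_univ, smul_eq_mul]
  exact mul_comm _ _

theorem kill_high {d : ℕ} (hd : 0 < d) (hcard : Fintype.card ι = d) {ω : ℂ}
    (hω : IsPrimitiveRoot ω d) (e : ι ≃ ι) (h0 : ∀ s, t s ≠ 0)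
    (he : ∀ s, t (e s) = ω * t s) (k : ℕ) (hk : 2 * k + 0 ≤ n + 2) (hn : n + 1 = 2 * k)
    (j : ℕ) (hj : d * k ≤ j) :
    act n (hank k 0 hk) ((∏ s, ph n (t s)).coeff j) = 0 := by
  have hid := det_identity (ι := ι) (R := Polynomial (Poly n)) cD (fun s => ph n (t s))
    (fun s b => vv n (t s) ^ (b : ℕ)) (fun b s => cD_ph b (t s)) (fun b s c => cD_vv_pow b (t s) _)
    (fun s => ph_ne_zero (t s)) k 0 (fun s => vv n (t s))
    (fun i j => ⟨(i : ℕ) + j + 0, by have := i.2; have := j.2; omega⟩) (fun i j s => rfl)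
  rw [← hank_coeff k 0 hk]
  have hP0 : ∏ s, ph n (t s) ≠ 0 := Finset.prod_ne_zero_iff.2 fun s _ => ph_ne_zero (t s)
  have hdet : ((Matrix.of fun i j : Fin k =>
        ∑ s, vv n (t s) ^ ((i : ℕ) + j + 0) * ∏ r ∈ univ.erase s, ph n (t r)).det).natDegree ≤
        k * ((n - 1) * d) := by
    rw [Matrix.det_apply]
    refine Polynomial.natDegree_sum_le_of_forall_le _ _ fun σ _ => ?_
    rw [Units.smul_def]
    refine (Polynomial.natDegree_smul_le _ _).trans ?_
    refine (Polynomial.natDegree_prod_le _ _).trans ?_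
    refine (Finset.sum_le_sum (g := fun _ => (n - 1) * d) fun i _ => ?_).trans ?_
    · rw [Matrix.of_apply]
      refine entry_deg hd hcard hω e he _ ?_
      have := i.2
      have := (σ i).2
      omega
    · rw [Finset.sum_const, Finset.card_univ, Fintype.card_fin, smul_eq_mul]
  set H := (∑ σ : Equiv.Perm (Fin k), (Equiv.Perm.sign σ : ℤ) •
      itD cD k (fun i => (⟨((σ i : Fin k) : ℕ) + i + 0, by
        have := i.2; have := (σ i).2; omega⟩ : Fin (n + 1))) (∏ s, ph n (t s))) with hH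
  by_cases hH0 : H = 0
  · rw [hH0, Polynomial.coeff_zero]
  · apply Polynomial.coeff_eq_zero_of_natDegree_lt
    have h1 : ((∏ s, ph n (t s)) ^ k * H).natDegree = k * (n * d) + H.natDegree := by
      rw [Polynomial.natDegree_mul (pow_ne_zero _ hP0) hH0, Polynomial.natDegree_pow,
        prod_deg h0, hcard]
    have h2 : ((∏ s, ph n (t s)) ^ k * H).natDegree ≤ n * d + k * ((n - 1) * d) := by
      rw [hid]
      refine Polynomial.natDegree_mul_le.trans (Nat.add_le_add ?_ hdet)
      rw [prod_deg h0, hcard]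
    rw [h1] at h2
    obtain ⟨k', rfl⟩ : ∃ k', k = k' + 1 := ⟨k - 1, by omega⟩
    obtain rfl : n = 2 * k' + 1 := by omega
    have e1 : 2 * k' + 1 - 1 = 2 * k' := by omega
    rw [e1] at h2
    have h3 : H.natDegree ≤ k' * d := by nlinarith
    nlinarith

/-- The product of the two Hankel determinants kills the cyclic product. -/
theorem kill {d : ℕ} (hd : 0 < d) (hcard : Fintype.card ι = d) {ω : ℂ}
    (hω : IsPrimitiveRoot ω d) (e : ι ≃ ι) (h0 : ∀ s, t s ≠ 0)
    (he : ∀ s, t (e s) = ω * t s) (k : ℕ) (hn : n + 1 = 2 * k) :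
    act n (hank k 0 (by omega) * hank k 1 (by omega)) (∏ s, lin n (t s)) = 0 := by
  have hF : ∏ s, lin n (t s) = (∏ s, ph n (t s)).eval 1 := by
    rw [Polynomial.eval_prod]
    refine Finset.prod_congr rfl fun s _ => ?_
    unfold lin ph vv
    rw [Polynomial.eval_finsetSum]
    refine Finset.sum_congr rfl fun a _ => ?_
    simp only [Polynomial.eval_mul, Polynomial.eval_C, Polynomial.eval_pow, Polynomial.eval_X,
      mul_one, map_pow]
    ring
  rw [hF, Polynomial.eval_eq_sum_range, map_sum]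
  refine Finset.sum_eq_zero fun j _ => ?_
  rw [one_pow, mul_one]
  rcases lt_or_ge j (d * k) with h | h
  · rw [act_mul, Module.End.mul_apply, kill_low hω e he k (by omega) j h, map_zero]
  · rw [mul_comm, act_mul, Module.End.mul_apply,
      kill_high hd hcard hω e h0 he k (by omega) hn j h, map_zero]

end rot

theorem hank_homog (k w : ℕ) (hw : 2 * k + w ≤ n + 2) :
    (hank k w hw : Poly n).IsHomogeneous k := by
  unfold hank
  rw [Matrix.det_apply]
  refine MvPolynomial.IsHomogeneous.sum _ _ _ fun σ _ => ?_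
  rw [Units.smul_def, zsmul_eq_mul, ← Int.cast_id (n := ((Equiv.Perm.sign σ : ℤˣ) : ℤ))]
  have h1 : (∏ i : Fin k, (Matrix.of fun i j : Fin k =>
      (X ⟨(i : ℕ) + j + w, by have := i.2; have := j.2; omega⟩ : Poly n)) (σ i) i).IsHomogeneous
        (∑ i : Fin k, 1) := by
    refine MvPolynomial.IsHomogeneous.prod _ _ _ fun i _ => ?_
    rw [Matrix.of_apply]
    exact MvPolynomial.isHomogeneous_X _ _
  have h2 : (((((Equiv.Perm.sign σ : ℤˣ) : ℤ)) : Poly n)).IsHomogeneous 0 := by
    have : (((((Equiv.Perm.sign σ : ℤˣ) : ℤ)) : Poly n)) =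
        C ((((Equiv.Perm.sign σ : ℤˣ) : ℤ)) : ℂ) := by
      rw [map_intCast]
    rw [this]
    exact MvPolynomial.isHomogeneous_C _ _
  have := h2.mul h1
  simpa using this

theorem hank_ne_zero (k w : ℕ) (hw : 2 * k + w ≤ n + 2) (hk : 0 < k) :
    (hank k w hw : Poly n) ≠ 0 := by
  intro h
  have h1 := congrArg (eval (fun a : Fin (n + 1) => if (a : ℕ) = k - 1 + w then (1 : ℂ) else 0)) h
  unfold hank at h1
  rw [map_zero, RingHom.map_det] at h1
  have h2 : (RingHom.mapMatrix (eval (fun a : Fin (n + 1) =>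
      if (a : ℕ) = k - 1 + w then (1 : ℂ) else 0)))
      (Matrix.of fun i j : Fin k =>
      (X ⟨(i : ℕ) + j + w, by have := i.2; have := j.2; omega⟩ : Poly n)) =
      (Equiv.toPEquiv (Fin.revPerm (n := k))).toMatrix := by
    ext i j
    rw [RingHom.mapMatrix_apply, Matrix.map_apply, Matrix.of_apply, eval_X,
      PEquiv.toMatrix_apply]
    have : ((j : Fin k) ∈ (Equiv.toPEquiv (Fin.revPerm (n := k))) i) ↔
        ((i : ℕ) + j + w = k - 1 + w) := by
      rw [Equiv.toPEquiv_apply, Option.mem_some_iff, Fin.revPerm_apply, Fin.ext_iff, Fin.val_rev]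
      have := i.2
      have := j.2
      omega
    simp only [this]
  rw [h2, Matrix.det_permutation] at h1
  have := (Equiv.Perm.sign (Fin.revPerm (n := k)))
  rcases Int.units_eq_one_or (Equiv.Perm.sign (Fin.revPerm (n := k))) with h3 | h3 <;>
    rw [h3] at h1 <;> norm_num at h1

end Pool.Agent.H7.Apolar
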