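import Mathlib

namespace Pool.Agent.H7.Cubic

/-- In a commutative group of order dividing `3`, one of `a`, `a*b`, `a^2*b`, `b^2` is trivial. -/
theorem group_lemma {Q : Type*} [CommGroup Q] [Finite Q] (h : Nat.card Q ∣ 3) (a b : Q) :
    a = 1 ∨ a * b = 1 ∨ a ^ 2 * b = 1 ∨ b ^ 2 = 1 := by
  have h3 : Nat.card Q = 1 ∨ Nat.card Q = 3 := (Nat.dvd_prime Nat.prime_three).1 h
  rcases h3 with h1 | h3
  · left
    have : Subsingleton Q := (Nat.card_eq_one_iff_unique.1 h1).1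
    exact Subsingleton.elim _ _
  · by_cases ha : a = 1
    · exact Or.inl ha
    have : Fact (Nat.Prime 3) := ⟨Nat.prime_three⟩
    have hb : b ∈ Subgroup.zpowers a := mem_zpowers_of_prime_card h3 ha
    have ha3 : a ^ 3 = 1 := by rw [← h3]; exact pow_card_eq_one'
    obtain ⟨k, rfl⟩ := Subgroup.mem_zpowers_iff.1 hb
    have hk : k % 3 = 0 ∨ k % 3 = 1 ∨ k % 3 = 2 := by omega
    have hmod : a ^ k = a ^ (k % 3) := by
      conv_lhs => rw [← Int.emod_add_mul_ediv k 3]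
      rw [zpow_add, zpow_mul]
      have : a ^ (3 : ℤ) = 1 := by exact_mod_cast ha3
      rw [this, one_zpow, mul_one]
    rw [hmod]
    rcases hk with hk | hk | hk <;> rw [hk]
    · right; right; right; simp
    · right; right; left
      rw [zpow_one, ← pow_succ]; exact ha3
    · right; left
      have : a * a ^ (2 : ℤ) = a ^ 3 := by
        rw [show (2 : ℤ) = ((2 : ℕ) : ℤ) by rfl, zpow_natCast, ← pow_succ']
      rw [this]; exact ha3

/-- For each prime `l > 3` there are `α, β` with `αβ(α-β) = 1` in `ZMod l`. -/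
theorem exists_cubic (l : ℕ) [Fact l.Prime] (hl : 3 < l) :
    ∃ α β : ZMod l, α * β * (α - β) = 1 := by
  have h2 : (2 : ZMod l) ≠ 0 := by
    intro h
    have : ((2 : ℕ) : ZMod l) = 0 := by exact_mod_cast h
    rw [ZMod.natCast_eq_zero_iff] at this
    have := Nat.le_of_dvd (by norm_num) this
    omega
  have h3 : (3 : ZMod l) ≠ 0 := by
    intro h
    have : ((3 : ℕ) : ZMod l) = 0 := by exact_mod_cast h
    rw [ZMod.natCast_eq_zero_iff] at this
    have := Nat.le_of_dvd (by norm_num) this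
    omega
  set a : (ZMod l)ˣ := Units.mk0 2 h2
  set b : (ZMod l)ˣ := Units.mk0 3 h3
  set S : Subgroup (ZMod l)ˣ := (powMonoidHom 3 : (ZMod l)ˣ →* (ZMod l)ˣ).range
  have hcard : Nat.card ((ZMod l)ˣ ⧸ S) ∣ 3 := by
    have : Nat.card ((ZMod l)ˣ ⧸ S) = S.index := rfl
    rw [this, IsCyclic.index_powMonoidHom_range]
    exact Nat.gcd_dvd_right _ _
  have key := group_lemma hcard (QuotientGroup.mk a : (ZMod l)ˣ ⧸ S) (QuotientGroup.mk b)
  -- if `[c] = 1` then `c` is a cube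
  have hcube : ∀ c : (ZMod l)ˣ, (QuotientGroup.mk c : (ZMod l)ˣ ⧸ S) = 1 → ∃ u : (ZMod l)ˣ, u ^ 3 = c := by
    intro c hc
    rw [QuotientGroup.eq_one_iff] at hc
    obtain ⟨u, hu⟩ := hc
    exact ⟨u, hu⟩
  -- conclude from `t(t-1) = u^3`
  have fin : ∀ (t : ZMod l) (u : (ZMod l)ˣ), ((u ^ 3 : (ZMod l)ˣ) : ZMod l) = t * (t - 1) →
      ∃ α β : ZMod l, α * β * (α - β) = 1 := by
    intro t u hu
    refine ⟨t * (u⁻¹ : (ZMod l)ˣ), (u⁻¹ : (ZMod l)ˣ), ?_⟩
    have h1 : t * ((u⁻¹ : (ZMod l)ˣ) : ZMod l) * ((u⁻¹ : (ZMod l)ˣ) : ZMod l) *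
        (t * ((u⁻¹ : (ZMod l)ˣ) : ZMod l) - ((u⁻¹ : (ZMod l)ˣ) : ZMod l))
        = (t * (t - 1)) * ((u⁻¹ ^ 3 : (ZMod l)ˣ) : ZMod l) := by
      push_cast; ring
    rw [h1, ← hu, ← Units.val_mul, inv_pow, mul_inv_cancel, Units.val_one]
  rcases key with h | h | h | h
  · obtain ⟨u, hu⟩ := hcube a h
    exact fin 2 u (by rw [hu]; simp [a]; norm_num)
  · obtain ⟨u, hu⟩ := hcube (a * b) (by simpa using h)
    exact fin 3 u (by rw [hu]; simp [a, b]; norm_num)
  · obtain ⟨u, hu⟩ := hcube (a ^ 2 * b) (by simpa using h)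
    exact fin 4 u (by rw [hu]; simp [a, b]; norm_num)
  · obtain ⟨u, hu⟩ := hcube (b ^ 2) (by simpa using h)
    refine fin 9 (a * u) (by rw [mul_pow, hu]; simp [a, b]; norm_num)

end Pool.Agent.H7.Cubic
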