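import Mathlib
import Pool.Agent.H7.Cubic

namespace Pool.Agent.H7.Core

open Pool.Agent.H7.Cubic

theorem crt {a b : ℤ} (h : IsCoprime a b) (u v : ℤ) : ∃ y, a ∣ y - u ∧ b ∣ y - v := by
  obtain ⟨s, t, hst⟩ := h
  refine ⟨u * (t * b) + v * (s * a), ?_, ?_⟩
  · refine ⟨(v - u) * s, ?_⟩
    linear_combination u * hst
  · refine ⟨(u - v) * t, ?_⟩
    linear_combination v * hst

/-- The quadratic residue computation. `D = A * l`, `N = B * r = |W|`. -/
theorem residue {A B l r : ℕ} (hA : Odd A) (hB : Odd B) (hl : Odd l) (hr : Odd r)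
    {ε : ℤ} {W D1 : ℤ} (hD1 : (B : ℤ) ∣ (A * l : ℕ) - D1)
    (hW : W = ε * (B * r : ℕ)) {α : ℤ} (hα : IsCoprime α l)
    (hWl : (l : ℤ) ∣ W - α ^ 2) {W1 : ℤ} (hWA : (A : ℤ) ∣ W - W1)
    (hJA : jacobiSym W1 A = 1) (hJB : jacobiSym (-D1) B = 1)
    (hε : (ε = 1 ∧ (W % 4 = 1 ∨ (A * l) % 4 = 3)) ∨ (ε = -1 ∧ W % 4 = 3 ∧ (A * l) % 4 = 1)) :
    jacobiSym (-((A * l : ℕ) : ℤ)) r = 1 := by
  have hB0 : B ≠ 0 := by rintro rfl; simp at hB
  have hr0 : r ≠ 0 := by rintro rfl; simp at hr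
  have hA0 : A ≠ 0 := by rintro rfl; simp at hA
  have hl0 : l ≠ 0 := by rintro rfl; simp at hl
  have : NeZero B := ⟨hB0⟩
  have : NeZero r := ⟨hr0⟩
  have : NeZero A := ⟨hA0⟩
  have : NeZero l := ⟨hl0⟩
  -- J(-D | B) = 1
  have h1 : jacobiSym (-((A * l : ℕ) : ℤ)) B = 1 := by
    rw [← hJB]
    apply jacobiSym.mod_left'
    have : (B : ℤ) ∣ (-((A * l : ℕ) : ℤ)) - (-D1) := by
      have := (dvd_neg (a := (B : ℤ))).2 hD1
      have e : -(((A * l : ℕ) : ℤ) - D1) = (-((A * l : ℕ) : ℤ)) - (-D1) := by ring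
      rwa [e] at this
    exact Int.ModEq.symm (Int.modEq_iff_dvd.2 this)
  have hN : Odd (B * r) := hB.mul hr
  have hD : Odd (A * l) := hA.mul hl
  -- J(N | D) = J(ε | D)
  have h2 : jacobiSym ((B * r : ℕ) : ℤ) (A * l) = jacobiSym ε (A * l) := by
    have hεε : ε * ε = 1 := by rcases hε with ⟨h, -⟩ | ⟨h, -⟩ <;> rw [h] <;> norm_num
    have hNW : ((B * r : ℕ) : ℤ) = ε * W := by
      rw [hW, ← mul_assoc, hεε, one_mul]
    rw [hNW, jacobiSym.mul_left]
    have hWD : jacobiSym W (A * l) = 1 := by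
      rw [jacobiSym.mul_right]
      have hWA' : jacobiSym W A = 1 := by
        rw [← hJA]
        exact jacobiSym.mod_left' (Int.ModEq.symm (Int.modEq_iff_dvd.2 hWA))
      have hWl' : jacobiSym W l = 1 := by
        rw [show jacobiSym W l = jacobiSym (α ^ 2) l from
          jacobiSym.mod_left' (Int.ModEq.symm (Int.modEq_iff_dvd.2 hWl))]
        exact jacobiSym.sq_one' (Int.isCoprime_iff_gcd_eq_one.1 hα)
      rw [hWA', hWl', one_mul]
    rw [hWD, mul_one]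
  -- J(-D | N) = 1
  have h3 : jacobiSym (-((A * l : ℕ) : ℤ)) (B * r) = 1 := by
    rw [jacobiSym.neg _ hN]
    have hN2 : (B * r) % 2 = 1 := Nat.odd_iff.1 hN
    have hD2 : (A * l) % 2 = 1 := Nat.odd_iff.1 hD
    rcases hε with ⟨h, h'⟩ | ⟨h, h', h''⟩
    · rw [h, jacobiSym.one_left] at h2
      have hWN : W = ((B * r : ℕ) : ℤ) := by rw [hW, h, one_mul]
      have hN4 : (B * r) % 4 = 1 ∨ (B * r) % 4 = 3 := by omega
      rcases hN4 with hN4 | hN4
      · rw [ZMod.χ₄_nat_one_mod_four hN4, one_mul,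
          ← jacobiSym.quadratic_reciprocity_one_mod_four hN4 hD]
        exact h2
      · have hD4 : (A * l) % 4 = 3 := by
          rcases h' with h' | h'
          · exfalso; rw [hWN] at h'; omega
          · exact h'
        rw [ZMod.χ₄_nat_three_mod_four hN4,
          jacobiSym.quadratic_reciprocity_three_mod_four hD4 hN4, h2]
        norm_num
    · have hN4 : (B * r) % 4 = 1 := by
        rw [hW, h] at h'
        omega
      rw [ZMod.χ₄_nat_one_mod_four hN4, one_mul,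
          ← jacobiSym.quadratic_reciprocity_one_mod_four hN4 hD, h2, h, jacobiSym.at_neg_one hD,
          ZMod.χ₄_nat_one_mod_four h'']
  rw [jacobiSym.mul_right, h1, one_mul] at h3
  exact h3


theorem dvd_of_mul_coprime {a b c : ℤ} (h : a ∣ b * c) (hab : IsCoprime b a) : a ∣ c :=
  hab.symm.dvd_of_dvd_mul_left h

/-- The core lemma: an approximate solution is congruent to an exact one. -/
theorem core (R : ℤ) (hR4 : 4 ∣ R) (hR0 : R ≠ 0) (A B : ℕ) (hAodd : Odd A) (hBodd : Odd B)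
    (hAR : (A : ℤ) ∣ R) (hBR : (B : ℤ) ∣ R) (w1 x1 y1 z1 D' W' : ℤ)
    (hD : w1 * x1 + w1 * y1 + x1 * y1 = A * D') (hW : w1 + y1 = B * W')
    (hD' : IsCoprime D' R) (hW' : IsCoprime W' R)
    (he : R ∣ x1 * y1 * z1 + w1 * y1 * z1 + w1 * x1 * z1 + w1 * x1 * y1 + 1)
    (hJA : jacobiSym (w1 + y1) A = 1)
    (hJB : jacobiSym (-(w1 * x1 + w1 * y1 + x1 * y1)) B = 1) (n : ℕ) :
    ∃ (l : ℕ) (w x y z : ℤ), l.Prime ∧ n < l ∧ w * x + w * y + x * y = A * l ∧
      x * y * z + w * y * z + w * x * z + w * x * y + 1 = 0 ∧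
      R ∣ w - w1 ∧ R ∣ x - x1 ∧ R ∣ y - y1 ∧ R ∣ A * (z - z1) := by
  -- Step a: the prime `l`
  have hR2 : (R ^ 2).natAbs ≠ 0 := by
    rw [Ne, Int.natAbs_eq_zero]; exact pow_ne_zero 2 hR0
  have hcast : ((R ^ 2).natAbs : ℤ) = R ^ 2 := by
    rw [Int.natCast_natAbs, abs_of_nonneg (sq_nonneg R)]
  obtain ⟨l, hln, hlp, hlmod⟩ := Nat.forall_exists_prime_gt_and_zmodEq
    (max n (max 3 (R.natAbs + A + B))) (q := (R ^ 2).natAbs) (a := D') hR2
    (by rw [hcast]; exact IsCoprime.pow_right hD')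
  have hl3 : 3 < l := lt_of_le_of_lt (le_max_of_le_right (le_max_left _ _)) hln
  have hlbig : R.natAbs + A + B < l :=
    lt_of_le_of_lt (le_max_of_le_right (le_max_right _ _)) hln
  have hnl : n < l := lt_of_le_of_lt (le_max_left _ _) hln
  have hlD : R ^ 2 ∣ (l : ℤ) - D' := by
    rw [← hcast]; exact (Int.modEq_iff_dvd.1 hlmod.symm)
  have : Fact l.Prime := ⟨hlp⟩
  have hlodd : Odd l := hlp.odd_of_ne_two (by omega)
  have hRl : IsCoprime R (l : ℤ) := by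
    rw [Int.isCoprime_iff_gcd_eq_one, Int.gcd, Int.natAbs_natCast]
    exact Nat.Coprime.symm ((Nat.Prime.coprime_iff_not_dvd hlp).2 (fun h => by
      have := Nat.le_of_dvd (Int.natAbs_pos.2 hR0) h
      omega))
  have hAl : IsCoprime (A : ℤ) (l : ℤ) := hRl.of_isCoprime_of_dvd_left hAR
  have hBl : IsCoprime (B : ℤ) (l : ℤ) := hRl.of_isCoprime_of_dvd_left hBR
  -- Step b: `α, β`
  obtain ⟨α₀, β₀, hαβ₀⟩ := exists_cubic l hl3
  obtain ⟨α, rfl⟩ := ZMod.intCast_surjective α₀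
  obtain ⟨β, rfl⟩ := ZMod.intCast_surjective β₀
  have hαβ : (l : ℤ) ∣ α * β * (α - β) - 1 := by
    rw [← ZMod.intCast_zmod_eq_zero_iff_dvd]
    push_cast
    rw [hαβ₀, sub_self]
  have hα : IsCoprime α (l : ℤ) := by
    obtain ⟨c, hc⟩ := hαβ
    refine ⟨β * (α - β), -c, ?_⟩
    linear_combination hc
  -- Step c: the sign and the prime `r`
  have hDodd : Odd (A * l) := hAodd.mul hlodd
  have hD2 : (A * l) % 2 = 1 := Nat.odd_iff.1 hDodd
  have hW1odd : (w1 + y1) % 2 = 1 := by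
    have h2R : (2 : ℤ) ∣ R := dvd_trans (by norm_num) hR4
    have hc : IsCoprime W' 2 := hW'.of_isCoprime_of_dvd_right h2R
    have hW'odd : Odd W' := by
      rw [← Int.not_even_iff_odd]
      intro hev
      obtain ⟨k, hk⟩ := hev.two_dvd
      obtain ⟨s, t, hst⟩ := hc
      rw [hk] at hst
      have : (2 : ℤ) ∣ 1 := ⟨s * k + t, by linear_combination -hst⟩
      norm_num at this
    have hBodd' : Odd (B : ℤ) := by exact_mod_cast hBodd
    have := hBodd'.mul hW'odd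
    rw [← hW] at this
    exact Int.odd_iff.1 this
  obtain ⟨ε, hε⟩ : ∃ ε : ℤ, (ε = 1 ∧ ((w1 + y1) % 4 = 1 ∨ (A * l) % 4 = 3)) ∨
      (ε = -1 ∧ (w1 + y1) % 4 = 3 ∧ (A * l) % 4 = 1) := by
    by_cases h1 : (w1 + y1) % 4 = 1
    · exact ⟨1, Or.inl ⟨rfl, Or.inl h1⟩⟩
    by_cases h2 : (A * l) % 4 = 3
    · exact ⟨1, Or.inl ⟨rfl, Or.inr h2⟩⟩
    exact ⟨-1, Or.inr ⟨rfl, by omega, by omega⟩⟩
  have hεε : ε * ε = 1 := by rcases hε with ⟨h, -⟩ | ⟨h, -⟩ <;> rw [h] <;> norm_num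
  obtain ⟨s, t, hst⟩ := hBl
  -- want `a ≡ ε W'` mod `R^2`, `a ≡ ε s α^2` mod `l`, where `s B ≡ 1`
  have hR2l : IsCoprime (R ^ 2) (l : ℤ) := IsCoprime.pow_left hRl
  obtain ⟨a, ha1, ha2⟩ := crt hR2l (ε * W') (ε * s * α ^ 2)
  have haR : IsCoprime a (R ^ 2) := by
    obtain ⟨c, hc⟩ := ha1
    have h1 : IsCoprime (ε * W') (R ^ 2) := by
      apply IsCoprime.mul_left
      · exact ⟨ε, 0, by linear_combination hεε⟩
      · exact IsCoprime.pow_right hW'
    have : a = ε * W' + R ^ 2 * c := by linarith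
    rw [this]
    exact IsCoprime.add_mul_left_left h1 c
  have hal : IsCoprime a (l : ℤ) := by
    obtain ⟨c, hc⟩ := ha2
    have h1 : IsCoprime (ε * s * α ^ 2) (l : ℤ) := by
      apply IsCoprime.mul_left
      · apply IsCoprime.mul_left
        · exact ⟨ε, 0, by linear_combination hεε⟩
        · exact ⟨B, t, by linear_combination hst⟩
      · exact IsCoprime.pow_left hα
    have : a = ε * s * α ^ 2 + l * c := by linarith
    rw [this]
    exact IsCoprime.add_mul_left_left h1 c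
  have hq0 : ((R ^ 2).natAbs * l) ≠ 0 := mul_ne_zero hR2 hlp.ne_zero
  obtain ⟨r, hrn, hrp, hrmod⟩ := Nat.forall_exists_prime_gt_and_zmodEq
    (max 2 (R.natAbs + A + B + l)) (q := (R ^ 2).natAbs * l) (a := a) hq0
    (by push_cast; rw [← Int.natCast_natAbs, hcast]; exact haR.mul_right hal)
  have hr2 : 2 < r := lt_of_le_of_lt (le_max_left _ _) hrn
  have hrbig : R.natAbs + A + B + l < r := lt_of_le_of_lt (le_max_right _ _) hrn
  have : Fact r.Prime := ⟨hrp⟩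
  have hrodd : Odd r := hrp.odd_of_ne_two (by omega)
  have hra : (R ^ 2 * (l : ℤ)) ∣ (r : ℤ) - a := by
    have := Int.modEq_iff_dvd.1 hrmod.symm
    push_cast at this
    rwa [← Int.natCast_natAbs, hcast] at this
  have hrR : R ^ 2 ∣ (r : ℤ) - ε * W' := by
    have := dvd_add (dvd_trans (Dvd.intro _ rfl) hra) ha1
    simpa using this
  have hrl : (l : ℤ) ∣ (r : ℤ) - ε * s * α ^ 2 := by
    have := dvd_add (dvd_trans (Dvd.intro_left _ rfl) hra) ha2
    simpa using this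
  have hRr : IsCoprime R (r : ℤ) := by
    rw [Int.isCoprime_iff_gcd_eq_one, Int.gcd, Int.natAbs_natCast]
    exact Nat.Coprime.symm ((Nat.Prime.coprime_iff_not_dvd hrp).2 (fun h => by
      have := Nat.le_of_dvd (Int.natAbs_pos.2 hR0) h
      omega))
  have hlr : IsCoprime (l : ℤ) (r : ℤ) := by
    rw [Nat.isCoprime_iff_coprime]
    exact (Nat.coprime_primes hlp hrp).2 (by omega)
  set W : ℤ := ε * (B * r : ℕ) with hWdef
  have hWR : R ^ 2 ∣ W - (w1 + y1) := by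
    obtain ⟨c, hc⟩ := hrR
    refine ⟨ε * B * c, ?_⟩
    rw [hWdef, hW]
    push_cast
    linear_combination ε * B * hc + (B : ℤ) * W' * hεε
  have hWl : (l : ℤ) ∣ W - α ^ 2 := by
    obtain ⟨c, hc⟩ := hrl
    refine ⟨ε * B * c - t * α ^ 2, ?_⟩
    rw [hWdef]
    push_cast
    linear_combination ε * B * hc + α ^ 2 * s * B * hεε + α ^ 2 * hst
  have hRR2 : R ∣ R ^ 2 := Dvd.intro_left R (by ring)
  have hW4 : W % 4 = (w1 + y1) % 4 := by
    have : (4 : ℤ) ∣ W - (w1 + y1) := dvd_trans (dvd_trans hR4 hRR2) hWR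
    omega
  have hDR : R ^ 2 ∣ ((A * l : ℕ) : ℤ) - (w1 * x1 + w1 * y1 + x1 * y1) := by
    rw [hD]
    push_cast
    obtain ⟨c, hc⟩ := hlD
    exact ⟨A * c, by linear_combination (A : ℤ) * hc⟩
  -- Step d
  have hJ : jacobiSym (-((A * l : ℕ) : ℤ)) r = 1 :=
    residue hAodd hBodd hlodd hrodd (D1 := w1 * x1 + w1 * y1 + x1 * y1)
      (dvd_trans (dvd_trans hBR hRR2) hDR) hWdef hα hWl
      (dvd_trans (dvd_trans hAR hRR2) hWR) hJA hJB (by rw [hW4]; exact hε)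
  -- Step e
  obtain ⟨c₀, hc₀⟩ := ZMod.isSquare_of_jacobiSym_eq_one hJ
  obtain ⟨c, rfl⟩ := ZMod.intCast_surjective c₀
  have hc : (r : ℤ) ∣ (A * l : ℕ) + c ^ 2 := by
    rw [← ZMod.intCast_zmod_eq_zero_iff_dvd]
    push_cast
    push_cast at hc₀
    linear_combination -hc₀
  -- Step f
  obtain ⟨y2, hy2a, hy2b⟩ := crt hlr (α * β) c
  have hR2lr : IsCoprime (R ^ 2) ((l : ℤ) * r) :=
    IsCoprime.mul_right hR2l (IsCoprime.pow_left hRr)
  obtain ⟨y, hy1, hy3⟩ := crt hR2lr y1 y2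
  have hyl : (l : ℤ) ∣ y - α * β := by
    have := dvd_add (dvd_trans (Dvd.intro _ rfl) hy3) hy2a
    simpa using this
  have hyr : (r : ℤ) ∣ y - c := by
    have := dvd_add (dvd_trans (Dvd.intro_left _ rfl) hy3) hy2b
    simpa using this
  -- Step g
  have hrD : (r : ℤ) ∣ (A * l : ℕ) + y ^ 2 := by
    have h1 : (r : ℤ) ∣ (y - c) * (y + c) := Dvd.dvd.mul_right hyr _
    have := dvd_add h1 hc
    have e : (y - c) * (y + c) + ((A * l : ℕ) + c ^ 2) = (A * l : ℕ) + y ^ 2 := by ring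
    rwa [e] at this
  have hysq : R ^ 2 ∣ y ^ 2 - y1 ^ 2 := by
    have h1 : R ^ 2 ∣ (y - y1) * (y + y1) := Dvd.dvd.mul_right hy1 _
    have e : (y - y1) * (y + y1) = y ^ 2 - y1 ^ 2 := by ring
    rwa [e] at h1
  have hDy : R ^ 2 ∣ ((A * l : ℕ) + y ^ 2) - (w1 + y1) * (x1 + y1) := by
    have := dvd_add hDR hysq
    have e : ((A * l : ℕ) : ℤ) - (w1 * x1 + w1 * y1 + x1 * y1) + (y ^ 2 - y1 ^ 2)
      = ((A * l : ℕ) + y ^ 2) - (w1 + y1) * (x1 + y1) := by ring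
    rwa [e] at this
  have hBD : (B : ℤ) ∣ (A * l : ℕ) + y ^ 2 := by
    have h1 : (B : ℤ) ∣ ((A * l : ℕ) + y ^ 2) - (w1 + y1) * (x1 + y1) :=
      dvd_trans (dvd_trans hBR hRR2) hDy
    have h2 : (B : ℤ) ∣ (w1 + y1) * (x1 + y1) := by rw [hW]; exact ⟨W' * (x1 + y1), by ring⟩
    have := dvd_add h1 h2
    simpa using this
  have hBr : IsCoprime (B : ℤ) (r : ℤ) := hRr.of_isCoprime_of_dvd_left hBR
  obtain ⟨X, hX⟩ : W ∣ (A * l : ℕ) + y ^ 2 := by
    obtain ⟨k, hk⟩ := hBr.mul_dvd hBD hrD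
    refine ⟨ε * k, ?_⟩
    rw [hk, hWdef]
    push_cast
    linear_combination -(B : ℤ) * r * k * hεε
  -- Step i: `X ≡ x1 + y1` mod `R`
  have hXR : R ∣ X - (x1 + y1) := by
    have h1 : R ^ 2 ∣ (w1 + y1) * (X - (x1 + y1)) := by
      have e : (w1 + y1) * (X - (x1 + y1)) =
        (((A * l : ℕ) + y ^ 2) - (w1 + y1) * (x1 + y1)) - (W - (w1 + y1)) * X := by
        rw [hX]; ring
      rw [e]
      exact dvd_sub hDy (Dvd.dvd.mul_right hWR _)
    rw [hW] at h1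
    have h2 : R ^ 2 ∣ B * (X - (x1 + y1)) := by
      have : R ^ 2 ∣ W' * (B * (X - (x1 + y1))) := by
        have e : W' * (B * (X - (x1 + y1))) = B * W' * (X - (x1 + y1)) := by ring
        rw [e]; exact h1
      exact dvd_of_mul_coprime this (IsCoprime.pow_right hW')
    obtain ⟨k, hk⟩ := hBR
    obtain ⟨j, hj⟩ := h2
    have hB0 : (B : ℤ) ≠ 0 := by
      rintro h; rw [h, zero_mul] at hk; exact hR0 hk
    refine ⟨k * j, ?_⟩
    apply mul_left_cancel₀ hB0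
    rw [hj]
    linear_combination R * j * hk
  have hywR : R ∣ y - y1 := dvd_trans hRR2 hy1
  have hwR : R ∣ (W - y) - w1 := by
    have := dvd_sub (dvd_trans hRR2 hWR) hywR
    have e : W - (w1 + y1) - (y - y1) = (W - y) - w1 := by ring
    rwa [e] at this
  have hxR : R ∣ (X - y) - x1 := by
    have := dvd_sub hXR hywR
    have e : X - (x1 + y1) - (y - y1) = (X - y) - x1 := by ring
    rwa [e] at this
  -- Step h
  have hDeq : (W - y) * (X - y) + (W - y) * y + (X - y) * y = A * l := by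
    have e : (W - y) * (X - y) + (W - y) * y + (X - y) * y = W * X - y ^ 2 := by ring
    rw [e, ← hX]; push_cast; ring
  -- Step j
  have hprodR : R ∣ (W - y) * (X - y) * y - w1 * x1 * y1 := by
    obtain ⟨a1, h1⟩ := hwR
    obtain ⟨a2, h2⟩ := hxR
    obtain ⟨a3, h3⟩ := hywR
    have e1 : W - y = w1 + R * a1 := by linarith
    have e2 : X - y = x1 + R * a2 := by linarith
    have e3 : y = y1 + R * a3 := by linarith
    rw [e1, e2, e3]
    exact ⟨a1 * x1 * y1 + w1 * a2 * y1 + w1 * x1 * a3 + R * (a1 * a2 * y1 + a1 * x1 * a3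
      + w1 * a2 * a3) + R ^ 2 * a1 * a2 * a3, by ring⟩
  have he' : R ∣ z1 * (w1 * x1 + w1 * y1 + x1 * y1) + (1 + w1 * x1 * y1) := by
    have e : x1 * y1 * z1 + w1 * y1 * z1 + w1 * x1 * z1 + w1 * x1 * y1 + 1 =
      z1 * (w1 * x1 + w1 * y1 + x1 * y1) + (1 + w1 * x1 * y1) := by ring
    rwa [e] at he
  have hAdvd : (A : ℤ) ∣ 1 + (W - y) * (X - y) * y := by
    have h1 := dvd_trans hAR hprodR
    have h2 := dvd_trans hAR he'
    have h3 : (A : ℤ) ∣ z1 * (w1 * x1 + w1 * y1 + x1 * y1) := by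
      rw [hD]; exact ⟨z1 * D', by ring⟩
    have := dvd_sub (dvd_add h1 h2) h3
    have e : (W - y) * (X - y) * y - w1 * x1 * y1 +
      (z1 * (w1 * x1 + w1 * y1 + x1 * y1) + (1 + w1 * x1 * y1)) -
      z1 * (w1 * x1 + w1 * y1 + x1 * y1) = 1 + (W - y) * (X - y) * y := by ring
    rwa [e] at this
  have hldvd : (l : ℤ) ∣ 1 + (W - y) * (X - y) * y := by
    -- modulo `l`
    have hXl : (l : ℤ) ∣ X - β ^ 2 := by
      have h1 : (l : ℤ) ∣ α ^ 2 * (X - β ^ 2) := by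
        obtain ⟨a1, h1⟩ := hWl
        obtain ⟨a2, h2⟩ := hyl
        have e1 : α ^ 2 = W - l * a1 := by linarith
        have e2 : α * β = y - l * a2 := by linarith
        refine ⟨-a1 * X + A + 2 * y * a2 - l * a2 ^ 2, ?_⟩
        have : α ^ 2 * (X - β ^ 2) = α ^ 2 * X - (α * β) ^ 2 := by ring
        rw [this, e1, e2]
        have hX' : (A : ℤ) * l + y ^ 2 = W * X := by rw [← hX]; push_cast; ring
        linear_combination -hX'
      exact dvd_of_mul_coprime h1 (IsCoprime.pow_left hα)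
    obtain ⟨a1, h1⟩ := hWl
    obtain ⟨a2, h2⟩ := hyl
    obtain ⟨a3, h3⟩ := hXl
    obtain ⟨a4, h4⟩ := hαβ
    have e1 : W = α ^ 2 + l * a1 := by linarith
    have e2 : y = α * β + l * a2 := by linarith
    have e3 : X = β ^ 2 + l * a3 := by linarith
    have hcong : (l : ℤ) ∣ (W - y) * (X - y) * y - (α ^ 2 - α * β) * (β ^ 2 - α * β) * (α * β) := by
      have d1 : (l : ℤ) ∣ (W - y) - (α ^ 2 - α * β) := ⟨a1 - a2, by rw [e1, e2]; ring⟩
      have d2 : (l : ℤ) ∣ (X - y) - (β ^ 2 - α * β) := ⟨a3 - a2, by rw [e3, e2]; ring⟩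
      have d3 : (l : ℤ) ∣ y - α * β := ⟨a2, h2⟩
      have e : (W - y) * (X - y) * y - (α ^ 2 - α * β) * (β ^ 2 - α * β) * (α * β) =
        ((W - y) - (α ^ 2 - α * β)) * ((X - y) * y) +
        ((X - y) - (β ^ 2 - α * β)) * ((α ^ 2 - α * β) * y) +
        (y - α * β) * ((α ^ 2 - α * β) * (β ^ 2 - α * β)) := by ring
      rw [e]
      exact dvd_add (dvd_add (Dvd.dvd.mul_right d1 _) (Dvd.dvd.mul_right d2 _))
        (Dvd.dvd.mul_right d3 _)
    have h5 : (l : ℤ) ∣ 1 + (α ^ 2 - α * β) * (β ^ 2 - α * β) * (α * β) := by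
      have e : 1 + (α ^ 2 - α * β) * (β ^ 2 - α * β) * (α * β) =
        -((α * β * (α - β) - 1) * (α * β * (α - β) + 1)) := by ring
      rw [e, dvd_neg]
      exact Dvd.dvd.mul_right ⟨a4, h4⟩ _
    have := dvd_add hcong h5
    have e : (W - y) * (X - y) * y - (α ^ 2 - α * β) * (β ^ 2 - α * β) * (α * β) +
      (1 + (α ^ 2 - α * β) * (β ^ 2 - α * β) * (α * β)) = 1 + (W - y) * (X - y) * y := by ring
    rwa [e] at this
  obtain ⟨z, hz⟩ : ((A : ℤ) * l) ∣ 1 + (W - y) * (X - y) * y := hAl.mul_dvd hAdvd hldvd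
  refine ⟨l, W - y, X - y, y, -z, hlp, hnl, hDeq, ?_, hwR, hxR, hywR, ?_⟩
  · linear_combination (-z) * hDeq + hz
  · -- `A * (z - z1)`
    have h1 : R ∣ (A * l) * (-z - z1) := by
      have h2 : R ∣ (1 + (W - y) * (X - y) * y) + z1 * (w1 * x1 + w1 * y1 + x1 * y1) := by
        have := dvd_add hprodR he'
        have e : (W - y) * (X - y) * y - w1 * x1 * y1 +
          (z1 * (w1 * x1 + w1 * y1 + x1 * y1) + (1 + w1 * x1 * y1)) =
          (1 + (W - y) * (X - y) * y) + z1 * (w1 * x1 + w1 * y1 + x1 * y1) := by ring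
        rwa [e] at this
      have h3 : R ∣ z1 * (((A * l : ℕ) : ℤ) - (w1 * x1 + w1 * y1 + x1 * y1)) :=
        Dvd.dvd.mul_left (dvd_trans hRR2 hDR) _
      have h4 := dvd_add h2 h3
      have e : (1 + (W - y) * (X - y) * y) + z1 * (w1 * x1 + w1 * y1 + x1 * y1) +
        z1 * (((A * l : ℕ) : ℤ) - (w1 * x1 + w1 * y1 + x1 * y1)) =
        -((A * l) * (-z - z1)) := by
        rw [hz]; push_cast; ring
      rw [e] at h4
      exact (dvd_neg.1 h4)
    have e : ((A : ℤ) * l) * (-z - z1) = l * (A * (-z - z1)) := by ring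
    rw [e] at h1
    exact dvd_of_mul_coprime h1 hRl.symm

end Pool.Agent.H7.Core
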