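import Mathlib

namespace Pool.Agent.H7.Local

/-- `E w x y z = e₃(w,x,y,z) + 1`. -/
def E (w x y z : ℤ) : ℤ := x * y * z + w * y * z + w * x * z + w * x * y + 1

theorem E_eq (w x y z : ℤ) : E w x y z = z * (w * x + w * y + x * y) + (1 + w * x * y) := by
  unfold E; ring

theorem E_congr {m w x y z w' x' y' z' : ℤ} (hw : m ∣ w - w') (hx : m ∣ x - x')
    (hy : m ∣ y - y') (hz : m ∣ z - z') : m ∣ E w x y z - E w' x' y' z' := by
  obtain ⟨a, ha⟩ := hw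
  obtain ⟨b, hb⟩ := hx
  obtain ⟨c, hc⟩ := hy
  obtain ⟨d, hd⟩ := hz
  have e1 : w = w' + m * a := by linarith
  have e2 : x = x' + m * b := by linarith
  have e3 : y = y' + m * c := by linarith
  have e4 : z = z' + m * d := by linarith
  have hE : E w x y z - E w' x' y' z' =
    (y - y') * (x * z + w * z + w * x) + (x - x') * (y' * z + w * z + w * y')
    + (z - z') * (x' * y' + w * y' + w * x') + (w - w') * (y' * z' + x' * z' + x' * y') := by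
    unfold E; ring
  rw [hE]
  refine dvd_add (dvd_add (dvd_add ?_ ?_) ?_) ?_ <;> apply Dvd.dvd.mul_right
  · exact ⟨c, hc⟩
  · exact ⟨b, hb⟩
  · exact ⟨d, hd⟩
  · exact ⟨a, ha⟩

/-- Solving a linear congruence. -/
theorem solve {m d : ℤ} (h : IsCoprime d m) (b : ℤ) : ∃ z, m ∣ z * d + b := by
  obtain ⟨s, t, hst⟩ := h
  exact ⟨-b * s, b * t, by linear_combination -b * hst⟩

theorem prime_int {p : ℕ} (hp : p.Prime) : Prime (p : ℤ) := Nat.prime_iff_prime_int.1 hp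

theorem coprime_of_not_dvd {p : ℕ} (hp : p.Prime) {d : ℤ} (h : ¬ (p : ℤ) ∣ d) (n : ℕ) :
    IsCoprime d ((p : ℤ) ^ n) :=
  IsCoprime.pow_right (((prime_int hp).coprime_iff_not_dvd.2 h).symm)

/-- Case I : `p` does not divide `D`. -/
theorem caseI {p : ℕ} (hp : p.Prime) {k : ℕ} (hk : 1 ≤ k) (w0 x0 y0 z0 : ℤ)
    (hE : (p : ℤ) ^ k ∣ E w0 x0 y0 z0) (hD : ¬ (p : ℤ) ∣ w0 * x0 + w0 * y0 + x0 * y0) :
    ∃ w x y z : ℤ, (p : ℤ) ^ k ∣ w - w0 ∧ (p : ℤ) ^ k ∣ x - x0 ∧ (p : ℤ) ^ k ∣ y - y0 ∧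
      (p : ℤ) ^ k ∣ z - z0 ∧ (p : ℤ) ^ (4 * k) ∣ E w x y z ∧
      ¬ (p : ℤ) ^ (k + 1) ∣ w * x + w * y + x * y ∧ ¬ (p : ℤ) ^ (k + 1) ∣ w + y := by
  have hpp := prime_int hp
  have hp0 : (p : ℤ) ≠ 0 := hpp.ne_zero
  have hpk : (p : ℤ) ∣ (p : ℤ) ^ k := dvd_pow_self _ (by omega)
  obtain ⟨w, hw, hW⟩ : ∃ w : ℤ, (p : ℤ) ^ k ∣ w - w0 ∧ ¬ (p : ℤ) ^ (k + 1) ∣ w + y0 := by
    by_cases h : (p : ℤ) ^ (k + 1) ∣ w0 + y0
    · refine ⟨w0 + (p : ℤ) ^ k, by simp, ?_⟩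
      intro h'
      have h2 := dvd_sub h' h
      have e : w0 + (p : ℤ) ^ k + y0 - (w0 + y0) = (p : ℤ) ^ k * 1 := by ring
      rw [e, pow_succ, mul_dvd_mul_iff_left (pow_ne_zero _ hp0)] at h2
      exact hpp.not_dvd_one h2
    · exact ⟨w0, by simp, h⟩
  have hDD : (p : ℤ) ^ k ∣ (w * x0 + w * y0 + x0 * y0) - (w0 * x0 + w0 * y0 + x0 * y0) := by
    obtain ⟨a, ha⟩ := hw
    exact ⟨a * (x0 + y0), by linear_combination (x0 + y0) * ha⟩
  have hD' : ¬ (p : ℤ) ∣ w * x0 + w * y0 + x0 * y0 := by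
    intro h
    apply hD
    have := dvd_sub h (dvd_trans hpk hDD)
    have e : w * x0 + w * y0 + x0 * y0 - ((w * x0 + w * y0 + x0 * y0) -
      (w0 * x0 + w0 * y0 + x0 * y0)) = w0 * x0 + w0 * y0 + x0 * y0 := by ring
    rwa [e] at this
  obtain ⟨z, hz⟩ := solve (coprime_of_not_dvd hp hD' (4 * k)) (1 + w * x0 * y0)
  refine ⟨w, x0, y0, z, hw, by simp, by simp, ?_, ?_, ?_, hW⟩
  · have h1 : (p : ℤ) ^ k ∣ z * (w * x0 + w * y0 + x0 * y0) + (1 + w * x0 * y0) :=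
      dvd_trans (pow_dvd_pow _ (by omega)) hz
    have h2 : (p : ℤ) ^ k ∣ (w * x0 + w * y0 + x0 * y0) * (z - z0) := by
      rw [E_eq] at hE
      have h3 : (p : ℤ) ^ k ∣ (w - w0) * x0 * y0 := by
        rw [mul_assoc]; exact Dvd.dvd.mul_right hw _
      have h4 := dvd_sub (dvd_sub (dvd_sub h1 hE) (Dvd.dvd.mul_left hDD z0)) h3
      have e : z * (w * x0 + w * y0 + x0 * y0) + (1 + w * x0 * y0) -
        (z0 * (w0 * x0 + w0 * y0 + x0 * y0) + (1 + w0 * x0 * y0)) -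
        z0 * ((w * x0 + w * y0 + x0 * y0) - (w0 * x0 + w0 * y0 + x0 * y0)) -
        (w - w0) * x0 * y0 = (w * x0 + w * y0 + x0 * y0) * (z - z0) := by ring
      rwa [e] at h4
    exact (coprime_of_not_dvd hp hD' k).symm.dvd_of_dvd_mul_left h2
  · rw [E_eq]; exact hz
  · intro h
    exact hD' (dvd_trans (dvd_pow_self _ (by omega)) h)

/-- Case II with the third face invertible. -/
theorem caseII {p : ℕ} (hp : p.Prime) {k : ℕ} (hk : 1 ≤ k) (w0 x0 y0 z0 : ℤ)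
    (hE : (p : ℤ) ^ k ∣ E w0 x0 y0 z0) (hD : (p : ℤ) ∣ w0 * x0 + w0 * y0 + x0 * y0)
    (hDy : ¬ (p : ℤ) ∣ w0 * x0 + w0 * z0 + x0 * z0) :
    ∃ w x y z : ℤ, (p : ℤ) ^ k ∣ w - w0 ∧ (p : ℤ) ^ k ∣ x - x0 ∧ (p : ℤ) ^ k ∣ y - y0 ∧
      (p : ℤ) ^ k ∣ z - z0 ∧ (p : ℤ) ^ (4 * k) ∣ E w x y z ∧
      ¬ (p : ℤ) ^ (k + 1) ∣ w * x + w * y + x * y := by
  have hpp := prime_int hp
  have hp0 : (p : ℤ) ≠ 0 := hpp.ne_zero
  have hpk : (p : ℤ) ∣ (p : ℤ) ^ k := dvd_pow_self _ (by omega)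
  have hEp : (p : ℤ) ∣ E w0 x0 y0 z0 := dvd_trans hpk hE
  -- `w0 x0 y0 ≡ -1`
  have hwxy : (p : ℤ) ∣ 1 + w0 * x0 * y0 := by
    rw [E_eq] at hEp
    have := dvd_sub hEp (Dvd.dvd.mul_left hD z0)
    simpa using this
  -- `F = w^2 x^2 - w - x`
  have hFid : ∀ w x y z : ℤ, (w * x + w * y + x * y) * (w * x + w * z + x * z) =
      (w ^ 2 * x ^ 2 - w - x) + (w + x) * E w x y z := by
    intro w x y z; unfold E; ring
  have hF0 : (p : ℤ) ∣ w0 ^ 2 * x0 ^ 2 - w0 - x0 := by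
    have h1 := hFid w0 x0 y0 z0
    have h2 := dvd_sub (Dvd.dvd.mul_right hD (w0 * x0 + w0 * z0 + x0 * z0))
      (Dvd.dvd.mul_left hEp (w0 + x0))
    rw [h1] at h2
    simpa using h2
  obtain ⟨w, x, hw, hx, hF⟩ : ∃ w x : ℤ, (p : ℤ) ^ k ∣ w - w0 ∧ (p : ℤ) ^ k ∣ x - x0 ∧
      ¬ (p : ℤ) ^ (k + 1) ∣ w ^ 2 * x ^ 2 - w - x := by
    by_contra hcon
    push Not at hcon
    have c1 := hcon w0 x0 (by simp) (by simp)
    have c2 := hcon (w0 + (p : ℤ) ^ k) x0 (by simp) (by simp)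
    have c3 := hcon w0 (x0 + (p : ℤ) ^ k) (by simp) (by simp)
    have hkk : (p : ℤ) ^ (k + 1) ∣ (p : ℤ) ^ k * (p : ℤ) ^ k := by
      rw [← pow_add]; exact pow_dvd_pow _ (by omega)
    have d1 : (p : ℤ) ∣ 2 * w0 * x0 ^ 2 - 1 := by
      have h := dvd_sub (dvd_sub c2 c1) (Dvd.dvd.mul_right hkk (x0 ^ 2))
      have e : (w0 + (p : ℤ) ^ k) ^ 2 * x0 ^ 2 - (w0 + (p : ℤ) ^ k) - x0 -
        (w0 ^ 2 * x0 ^ 2 - w0 - x0) - (p : ℤ) ^ k * (p : ℤ) ^ k * x0 ^ 2 =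
        (p : ℤ) ^ k * (2 * w0 * x0 ^ 2 - 1) := by ring
      rw [e, pow_succ, mul_dvd_mul_iff_left (pow_ne_zero _ hp0)] at h
      exact h
    have d2 : (p : ℤ) ∣ 2 * w0 ^ 2 * x0 - 1 := by
      have h := dvd_sub (dvd_sub c3 c1) (Dvd.dvd.mul_right hkk (w0 ^ 2))
      have e : w0 ^ 2 * (x0 + (p : ℤ) ^ k) ^ 2 - w0 - (x0 + (p : ℤ) ^ k) -
        (w0 ^ 2 * x0 ^ 2 - w0 - x0) - (p : ℤ) ^ k * (p : ℤ) ^ k * w0 ^ 2 =
        (p : ℤ) ^ k * (2 * w0 ^ 2 * x0 - 1) := by ring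
      rw [e, pow_succ, mul_dvd_mul_iff_left (pow_ne_zero _ hp0)] at h
      exact h
    -- `w0 ≡ x0`
    have d3 : (p : ℤ) ∣ w0 - x0 := by
      have h : (p : ℤ) ∣ (2 * w0 ^ 2 * x0) * (w0 - x0) := by
        obtain ⟨a, ha⟩ := d1
        obtain ⟨b, hb⟩ := d2
        refine ⟨w0 * b - w0 * a, ?_⟩
        linear_combination w0 * hb - w0 * ha
      rcases hpp.dvd_or_dvd h with h' | h'
      · exfalso
        have := dvd_sub h' d2
        have e : 2 * w0 ^ 2 * x0 - (2 * w0 ^ 2 * x0 - 1) = 1 := by ring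
        rw [e] at this
        exact hpp.not_dvd_one this
      · exact h'
    -- `p = 3`
    have d4 : (p : ℤ) ∣ 3 := by
      obtain ⟨a, ha⟩ := d1
      obtain ⟨b, hb⟩ := d3
      obtain ⟨c, hc⟩ := hF0
      -- x0 = w0 - p b
      have hx0 : x0 = w0 - p * b := by linarith
      -- 2 w0^3 ≡ 1, w0^4 ≡ 2 w0
      have e1 : (p : ℤ) ∣ 2 * w0 ^ 3 - 1 := by
        refine ⟨a + 4 * w0 ^ 2 * b - 2 * w0 * p * b ^ 2, ?_⟩
        rw [hx0] at ha
        linear_combination ha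
      have e2 : (p : ℤ) ∣ w0 ^ 4 - 2 * w0 := by
        refine ⟨c + 2 * w0 ^ 3 * b - w0 ^ 2 * p * b ^ 2 - b, ?_⟩
        rw [hx0] at hc
        linear_combination hc
      obtain ⟨a1, ha1⟩ := e1
      obtain ⟨a2, ha2⟩ := e2
      -- 3 = ...
      -- 2 w0^3 = 1 + p a1 ; w0^4 - 2 w0 = p a2 ; so w0 (2 w0^3 - 4) = 2 p a2, w0 (p a1 - 3) = 2 p a2
      have h3w : (p : ℤ) ∣ w0 * 3 := ⟨w0 * a1 - 2 * a2, by linear_combination w0 * ha1 - 2 * ha2⟩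
      rcases hpp.dvd_or_dvd h3w with h' | h'
      · exfalso
        have := dvd_sub (Dvd.dvd.mul_left h' (2 * w0 ^ 2)) ⟨a1, ha1⟩
        have e : 2 * w0 ^ 2 * w0 - (2 * w0 ^ 3 - 1) = 1 := by ring
        rw [e] at this
        exact hpp.not_dvd_one this
      · exact h'
    have hp3 : p = 3 := by
      have : p ∣ 3 := by exact_mod_cast d4
      exact (Nat.prime_dvd_prime_iff_eq hp Nat.prime_three).1 this
    subst hp3
    -- `9 ∣ F(w0,x0)` is impossible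
    have h9 : (9 : ℤ) ∣ w0 ^ 2 * x0 ^ 2 - w0 - x0 := by
      refine dvd_trans ?_ c1
      have : ((3 : ℕ) : ℤ) ^ 2 ∣ ((3 : ℕ) : ℤ) ^ (k + 1) := pow_dvd_pow _ (by omega)
      norm_num at this ⊢
      exact this
    obtain ⟨b, hb⟩ := d3
    obtain ⟨a, ha⟩ := d2
    push_cast at hb ha
    -- w0 mod 3
    have hw3 : w0 % 3 = 0 ∨ w0 % 3 = 1 ∨ w0 % 3 = 2 := by omega
    have hx0 : x0 = w0 - 3 * b := by linarith
    rw [hx0] at ha h9
    have hw2 : w0 % 3 = 2 := by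
      rcases hw3 with h' | h' | h'
      · exfalso
        obtain ⟨c, hc⟩ : ∃ c, w0 = 3 * c := ⟨w0 / 3, by omega⟩
        rw [hc] at ha
        have : (3 : ℤ) ∣ 1 := ⟨2 * (3 * c) ^ 2 * (c - b) - a, by linear_combination -ha⟩
        norm_num at this
      · exfalso
        obtain ⟨c, hc⟩ : ∃ c, w0 = 3 * c + 1 := ⟨w0 / 3, by omega⟩
        rw [hc] at ha
        have : (3 : ℤ) ∣ 1 :=
          ⟨a - (2 * (3 * c + 1) ^ 2 * (c - b) + 2 * (3 * c ^ 2 + 2 * c)), by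
            linear_combination ha⟩
        norm_num at this
      · exact h'
    obtain ⟨c, hc⟩ : ∃ c, w0 = 3 * c + 2 := ⟨w0 / 3, by omega⟩
    obtain ⟨d, hd⟩ : ∃ d, w0 - 3 * b = 3 * d + 2 := ⟨c - b, by omega⟩
    rw [hd, hc] at h9
    -- F ≡ 3 mod 9
    obtain ⟨u, hu⟩ := h9
    have : (9 : ℤ) ∣ 3 := by
      refine ⟨u - (9 * (c ^ 2 + c) * (d ^ 2 + d) + (c ^ 2 + c) * (3 * d + 4)
        + (d ^ 2 + d) * (3 * c + 4) + c * d + c + d + 1), ?_⟩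
      linear_combination hu
    norm_num at this
  have hDyc : (p : ℤ) ^ k ∣ (w * x + w * z0 + x * z0) - (w0 * x0 + w0 * z0 + x0 * z0) := by
    obtain ⟨a, ha⟩ := hw
    obtain ⟨b, hb⟩ := hx
    have e1 : w = w0 + (p : ℤ) ^ k * a := by linarith
    have e2 : x = x0 + (p : ℤ) ^ k * b := by linarith
    rw [e1, e2]
    exact ⟨a * x0 + w0 * b + (p : ℤ) ^ k * a * b + a * z0 + b * z0, by ring⟩
  have hDy' : ¬ (p : ℤ) ∣ w * x + w * z0 + x * z0 := by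
    intro h
    apply hDy
    have := dvd_sub h (dvd_trans hpk hDyc)
    have e : w * x + w * z0 + x * z0 - ((w * x + w * z0 + x * z0) -
      (w0 * x0 + w0 * z0 + x0 * z0)) = w0 * x0 + w0 * z0 + x0 * z0 := by ring
    rwa [e] at this
  obtain ⟨y, hy⟩ := solve (coprime_of_not_dvd hp hDy' (4 * k)) (1 + w * x * z0)
  have hEy : ∀ w x y z : ℤ, E w x y z = y * (w * x + w * z + x * z) + (1 + w * x * z) := by
    intro w x y z; unfold E; ring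
  have hyE : (p : ℤ) ^ (4 * k) ∣ E w x y z0 := by rw [hEy]; exact hy
  refine ⟨w, x, y, z0, hw, hx, ?_, by simp, hyE, ?_⟩
  · have h1 : (p : ℤ) ^ k ∣ y * (w * x + w * z0 + x * z0) + (1 + w * x * z0) :=
      dvd_trans (pow_dvd_pow _ (by omega)) hy
    have h2 : (p : ℤ) ^ k ∣ (w * x + w * z0 + x * z0) * (y - y0) := by
      rw [hEy] at hE
      have h3 : (p : ℤ) ^ k ∣ w * x * z0 - w0 * x0 * z0 := by
        obtain ⟨a, ha⟩ := hw
        obtain ⟨b, hb⟩ := hx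
        have e1 : w = w0 + (p : ℤ) ^ k * a := by linarith
        have e2 : x = x0 + (p : ℤ) ^ k * b := by linarith
        rw [e1, e2]
        exact ⟨(a * x0 + w0 * b + (p : ℤ) ^ k * a * b) * z0, by ring⟩
      have h4 := dvd_sub (dvd_sub (dvd_sub h1 hE) (Dvd.dvd.mul_left hDyc y0)) h3
      have e : y * (w * x + w * z0 + x * z0) + (1 + w * x * z0) -
        (y0 * (w0 * x0 + w0 * z0 + x0 * z0) + (1 + w0 * x0 * z0)) -
        y0 * ((w * x + w * z0 + x * z0) - (w0 * x0 + w0 * z0 + x0 * z0)) -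
        (w * x * z0 - w0 * x0 * z0) = (w * x + w * z0 + x * z0) * (y - y0) := by ring
      rwa [e] at h4
    exact (coprime_of_not_dvd hp hDy' k).symm.dvd_of_dvd_mul_left h2
  · intro h
    apply hF
    have h1 := hFid w x y z0
    have h2 : (p : ℤ) ^ (k + 1) ∣ (w + x) * E w x y z0 :=
      Dvd.dvd.mul_left (dvd_trans (pow_dvd_pow _ (by omega)) hyE) _
    have h3 := dvd_sub (Dvd.dvd.mul_right h (w * x + w * z0 + x * z0)) h2
    rw [h1] at h3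
    simpa using h3

theorem E_swap1 (w x y z : ℤ) : E w y x z = E w x y z := by unfold E; ring

theorem E_swap2 (w x y z : ℤ) : E x y w z = E w x y z := by unfold E; ring

/-- The prime power case. -/
theorem prime_pow {p : ℕ} (hp : p.Prime) {k : ℕ} (hk : 1 ≤ k) (w0 x0 y0 z0 : ℤ)
    (hE : (p : ℤ) ^ k ∣ E w0 x0 y0 z0)
    (h3 : ¬ (p = 3 ∧ (3 : ℤ) ∣ w0 + 1 ∧ (3 : ℤ) ∣ x0 + 1 ∧ (3 : ℤ) ∣ y0 + 1 ∧ (3 : ℤ) ∣ z0 + 1))
    (h2 : p = 2 → (2 : ℤ) ∣ w0) :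
    ∃ w x y z : ℤ, (p : ℤ) ^ k ∣ w - w0 ∧ (p : ℤ) ^ k ∣ x - x0 ∧ (p : ℤ) ^ k ∣ y - y0 ∧
      (p : ℤ) ^ k ∣ z - z0 ∧ (p : ℤ) ^ (4 * k) ∣ E w x y z ∧
      ¬ (p : ℤ) ^ (k + 1) ∣ w * x + w * y + x * y ∧ ¬ (p : ℤ) ^ (k + 1) ∣ w + y := by
  have hpp := prime_int hp
  have hp0 : (p : ℤ) ≠ 0 := hpp.ne_zero
  have hpk : (p : ℤ) ∣ (p : ℤ) ^ k := dvd_pow_self _ (by omega)
  by_cases hD : (p : ℤ) ∣ w0 * x0 + w0 * y0 + x0 * y0
  swap
  · exact caseI hp hk w0 x0 y0 z0 hE hD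
  have hEp : (p : ℤ) ∣ E w0 x0 y0 z0 := dvd_trans hpk hE
  have hwxy : (p : ℤ) ∣ 1 + w0 * x0 * y0 := by
    rw [E_eq] at hEp
    have := dvd_sub hEp (Dvd.dvd.mul_left hD z0)
    simpa using this
  have hnw : ¬ (p : ℤ) ∣ w0 := by
    intro h
    have := dvd_sub hwxy (Dvd.dvd.mul_right h (x0 * y0))
    have e : 1 + w0 * x0 * y0 - w0 * (x0 * y0) = 1 := by ring
    rw [e] at this
    exact hpp.not_dvd_one this
  have hnx : ¬ (p : ℤ) ∣ x0 := by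
    intro h
    have := dvd_sub hwxy (Dvd.dvd.mul_right h (w0 * y0))
    have e : 1 + w0 * x0 * y0 - x0 * (w0 * y0) = 1 := by ring
    rw [e] at this
    exact hpp.not_dvd_one this
  have hny : ¬ (p : ℤ) ∣ y0 := by
    intro h
    have := dvd_sub hwxy (Dvd.dvd.mul_right h (w0 * x0))
    have e : 1 + w0 * x0 * y0 - y0 * (w0 * x0) = 1 := by ring
    rw [e] at this
    exact hpp.not_dvd_one this
  have hs1 : ¬ (p : ℤ) ∣ w0 + x0 := by
    intro h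
    have := dvd_sub hD (Dvd.dvd.mul_right h y0)
    have e : w0 * x0 + w0 * y0 + x0 * y0 - (w0 + x0) * y0 = w0 * x0 := by ring
    rw [e] at this
    rcases hpp.dvd_or_dvd this with h' | h'
    · exact hnw h'
    · exact hnx h'
  have hs2 : ¬ (p : ℤ) ∣ w0 + y0 := by
    intro h
    have := dvd_sub hD (Dvd.dvd.mul_right h x0)
    have e : w0 * x0 + w0 * y0 + x0 * y0 - (w0 + y0) * x0 = w0 * y0 := by ring
    rw [e] at this
    rcases hpp.dvd_or_dvd this with h' | h'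
    · exact hnw h'
    · exact hny h'
  have hs3 : ¬ (p : ℤ) ∣ x0 + y0 := by
    intro h
    have := dvd_sub hD (Dvd.dvd.mul_right h w0)
    have e : w0 * x0 + w0 * y0 + x0 * y0 - (x0 + y0) * w0 = x0 * y0 := by ring
    rw [e] at this
    rcases hpp.dvd_or_dvd this with h' | h'
    · exact hnx h'
    · exact hny h'
  -- the lift keeps `w + y` invertible
  have hWfin : ∀ w y : ℤ, (p : ℤ) ^ k ∣ w - w0 → (p : ℤ) ^ k ∣ y - y0 →
      ¬ (p : ℤ) ^ (k + 1) ∣ w + y := by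
    intro w y hw hy h
    apply hs2
    have h1 : (p : ℤ) ∣ w + y := dvd_trans (dvd_pow_self _ (by omega)) h
    have h2 := dvd_sub h1 (dvd_add (dvd_trans hpk hw) (dvd_trans hpk hy))
    have e : w + y - (w - w0 + (y - y0)) = w0 + y0 := by ring
    rwa [e] at h2
  by_cases hDy : (p : ℤ) ∣ w0 * x0 + w0 * z0 + x0 * z0
  swap
  · obtain ⟨w, x, y, z, a1, a2, a3, a4, a5, a6⟩ := caseII hp hk w0 x0 y0 z0 hE hD hDy
    exact ⟨w, x, y, z, a1, a2, a3, a4, a5, a6, hWfin w y a1 a3⟩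
  by_cases hDx : (p : ℤ) ∣ w0 * y0 + w0 * z0 + y0 * z0
  swap
  · have hD' : (p : ℤ) ∣ w0 * y0 + w0 * x0 + y0 * x0 := by
      have e : w0 * y0 + w0 * x0 + y0 * x0 = w0 * x0 + w0 * y0 + x0 * y0 := by ring
      rwa [e]
    obtain ⟨w, y, x, z, a1, a2, a3, a4, a5, a6⟩ := caseII hp hk w0 y0 x0 z0
      (by rw [E_swap1]; exact hE) hD' hDx
    refine ⟨w, x, y, z, a1, a3, a2, a4, by rw [← E_swap1]; exact a5, ?_, hWfin w y a1 a2⟩
    have e : w * x + w * y + x * y = w * y + w * x + y * x := by ring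
    rw [e]; exact a6
  by_cases hDw : (p : ℤ) ∣ x0 * y0 + x0 * z0 + y0 * z0
  swap
  · have hD' : (p : ℤ) ∣ x0 * y0 + x0 * w0 + y0 * w0 := by
      have e : x0 * y0 + x0 * w0 + y0 * w0 = w0 * x0 + w0 * y0 + x0 * y0 := by ring
      rwa [e]
    obtain ⟨x, y, w, z, a1, a2, a3, a4, a5, a6⟩ := caseII hp hk x0 y0 w0 z0
      (by rw [E_swap2]; exact hE) hD' hDw
    refine ⟨w, x, y, z, a3, a1, a2, a4, by rw [← E_swap2]; exact a5, ?_, hWfin w y a3 a2⟩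
    have e : w * x + w * y + x * y = x * y + x * w + y * w := by ring
    rw [e]; exact a6
  -- all faces vanish: the bad point
  exfalso
  have hyz : (p : ℤ) ∣ y0 - z0 := by
    have := dvd_sub hD hDy
    have e : w0 * x0 + w0 * y0 + x0 * y0 - (w0 * x0 + w0 * z0 + x0 * z0) =
      (w0 + x0) * (y0 - z0) := by ring
    rw [e] at this
    exact (hpp.dvd_or_dvd this).resolve_left hs1
  have hxz : (p : ℤ) ∣ x0 - z0 := by
    have := dvd_sub hD hDx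
    have e : w0 * x0 + w0 * y0 + x0 * y0 - (w0 * y0 + w0 * z0 + y0 * z0) =
      (w0 + y0) * (x0 - z0) := by ring
    rw [e] at this
    exact (hpp.dvd_or_dvd this).resolve_left hs2
  have hwz : (p : ℤ) ∣ w0 - z0 := by
    have := dvd_sub hD hDw
    have e : w0 * x0 + w0 * y0 + x0 * y0 - (x0 * y0 + x0 * z0 + y0 * z0) =
      (x0 + y0) * (w0 - z0) := by ring
    rw [e] at this
    exact (hpp.dvd_or_dvd this).resolve_left hs3
  obtain ⟨a, ha⟩ := hwz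
  obtain ⟨b, hb⟩ := hxz
  obtain ⟨c, hc⟩ := hyz
  have ew : w0 = z0 + p * a := by linarith
  have ex : x0 = z0 + p * b := by linarith
  have ey : y0 = z0 + p * c := by linarith
  have h3z : (p : ℤ) ∣ 3 * z0 ^ 2 := by
    obtain ⟨d, hd⟩ := hD
    rw [ew, ex, ey] at hd
    refine ⟨d - (2 * a * z0 + 2 * b * z0 + 2 * c * z0 + p * a * b + p * a * c + p * b * c), ?_⟩
    linear_combination hd
  have hnz : ¬ (p : ℤ) ∣ z0 := by
    intro h
    apply hnw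
    rw [ew]
    exact dvd_add h (Dvd.intro _ rfl)
  have hp3 : p = 3 := by
    rcases hpp.dvd_or_dvd h3z with h' | h'
    · have : p ∣ 3 := by exact_mod_cast h'
      exact (Nat.prime_dvd_prime_iff_eq hp Nat.prime_three).1 this
    · exact absurd (hpp.dvd_of_dvd_pow h') hnz
  subst hp3
  push_cast at *
  have hz1 : (3 : ℤ) ∣ z0 + 1 := by
    obtain ⟨d, hd⟩ := hwxy
    rw [ew, ex, ey] at hd
    have hcube : (3 : ℤ) ∣ z0 ^ 3 + 1 := by
      refine ⟨d - (a * (z0 + 3 * b) * (z0 + 3 * c) + z0 * b * (z0 + 3 * c) + z0 ^ 2 * c), ?_⟩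
      linear_combination hd
    have hz3 : z0 % 3 = 0 ∨ z0 % 3 = 1 ∨ z0 % 3 = 2 := by omega
    rcases hz3 with h' | h' | h'
    · exact absurd (Int.dvd_of_emod_eq_zero h') hnz
    · exfalso
      obtain ⟨e, he⟩ : ∃ e, z0 = 3 * e + 1 := ⟨z0 / 3, by omega⟩
      obtain ⟨f, hf⟩ := hcube
      rw [he] at hf
      have : (3 : ℤ) ∣ 2 := ⟨f - (9 * e ^ 3 + 9 * e ^ 2 + 3 * e), by linear_combination hf⟩
      norm_num at this
    · omega
  refine h3 ⟨trivial, ?_, ?_, ?_, hz1⟩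
  · rw [ew]; omega
  · rw [ex]; omega
  · rw [ey]; omega

/-- The local statement at a modulus `m`. -/
def P (m : ℕ) : Prop :=
  ∀ w0 x0 y0 z0 : ℤ, (m : ℤ) ∣ E w0 x0 y0 z0 →
    ¬ (3 ∣ m ∧ (3 : ℤ) ∣ w0 + 1 ∧ (3 : ℤ) ∣ x0 + 1 ∧ (3 : ℤ) ∣ y0 + 1 ∧ (3 : ℤ) ∣ z0 + 1) →
    (2 ∣ m → (2 : ℤ) ∣ w0) →
    ∃ w x y z : ℤ, (m : ℤ) ∣ w - w0 ∧ (m : ℤ) ∣ x - x0 ∧ (m : ℤ) ∣ y - y0 ∧
      (m : ℤ) ∣ z - z0 ∧ (m : ℤ) ^ 4 ∣ E w x y z ∧
      ∀ p : ℕ, p.Prime → p ∣ m →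
        ¬ (p : ℤ) ^ (m.factorization p + 1) ∣ w * x + w * y + x * y ∧
        ¬ (p : ℤ) ^ (m.factorization p + 1) ∣ w + y

theorem P_one : P 1 := by
  intro w0 x0 y0 z0 _ _ _
  refine ⟨w0, x0, y0, z0, by simp, by simp, by simp, by simp, by simp, ?_⟩
  intro p hp hp1
  exact absurd (Nat.dvd_one.1 hp1) hp.one_lt.ne'

theorem P_prime_pow {p : ℕ} (hp : p.Prime) {k : ℕ} (hk : 0 < k) : P (p ^ k) := by
  intro w0 x0 y0 z0 hE h3 h2
  push_cast at hE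
  have hpdvd : p ∣ p ^ k := dvd_pow_self _ (by omega)
  obtain ⟨w, x, y, z, a1, a2, a3, a4, a5, a6, a7⟩ := prime_pow hp (k := k) hk w0 x0 y0 z0 hE
    (by rintro ⟨rfl, h⟩; exact h3 ⟨hpdvd, h⟩) (by rintro rfl; exact h2 hpdvd)
  refine ⟨w, x, y, z, by push_cast; exact a1, by push_cast; exact a2, by push_cast; exact a3,
    by push_cast; exact a4, ?_, ?_⟩
  · push_cast; rw [← pow_mul, mul_comm k 4]; exact a5
  · intro q hq hqp
    have hqp' : q = p := (Nat.prime_dvd_prime_iff_eq hq hp).1 (hq.dvd_of_dvd_pow hqp)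
    subst hqp'
    rw [Nat.Prime.factorization_pow hq]
    simp only [Finsupp.single_eq_same]
    exact ⟨a6, a7⟩

theorem crt {a b : ℤ} (h : IsCoprime a b) (u v : ℤ) : ∃ y, a ∣ y - u ∧ b ∣ y - v := by
  obtain ⟨s, t, hst⟩ := h
  refine ⟨u * (t * b) + v * (s * a), ?_, ?_⟩
  · refine ⟨(v - u) * s, ?_⟩
    linear_combination u * hst
  · refine ⟨(u - v) * t, ?_⟩
    linear_combination v * hst

theorem D_congr {m w x y w' x' y' : ℤ} (hw : m ∣ w - w') (hx : m ∣ x - x')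
    (hy : m ∣ y - y') : m ∣ (w * x + w * y + x * y) - (w' * x' + w' * y' + x' * y') := by
  obtain ⟨a, ha⟩ := hw
  obtain ⟨b, hb⟩ := hx
  obtain ⟨c, hc⟩ := hy
  have e1 : w = w' + m * a := by linarith
  have e2 : x = x' + m * b := by linarith
  have e3 : y = y' + m * c := by linarith
  rw [e1, e2, e3]
  exact ⟨a * x' + w' * b + m * a * b + (a * y' + w' * c + m * a * c) +
    (b * y' + x' * c + m * b * c), by ring⟩

/-- Transfer of the non-divisibility conditions. -/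
theorem transfer {a : ℕ} (_ha : a ≠ 0) {n w x y w' x' y' : ℤ} (han : (a : ℤ) ^ 4 ∣ n)
    (hw : n ∣ w - w') (hx : n ∣ x - x') (hy : n ∣ y - y') {p : ℕ}
    (_hp : p.Prime) (hpa : p ∣ a)
    (h : ¬ (p : ℤ) ^ (a.factorization p + 1) ∣ w' * x' + w' * y' + x' * y' ∧
        ¬ (p : ℤ) ^ (a.factorization p + 1) ∣ w' + y') :
    ¬ (p : ℤ) ^ (a.factorization p + 1) ∣ w * x + w * y + x * y ∧
        ¬ (p : ℤ) ^ (a.factorization p + 1) ∣ w + y := by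
  have hv : (p : ℤ) ^ (a.factorization p + 1) ∣ n := by
    have h1 : p ^ (a.factorization p) ∣ a := Nat.ordProj_dvd a p
    have h2 : p ^ (a.factorization p + 1) ∣ a ^ 2 := by
      rw [pow_succ, pow_two]
      exact mul_dvd_mul h1 hpa
    have h3 : (p : ℤ) ^ (a.factorization p + 1) ∣ (a : ℤ) ^ 2 := by exact_mod_cast h2
    exact dvd_trans (dvd_trans h3 (pow_dvd_pow _ (by norm_num))) han
  refine ⟨fun h' => h.1 ?_, fun h' => h.2 ?_⟩
  · have := dvd_sub h' (dvd_trans hv (D_congr hw hx hy))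
    simpa using this
  · have h1 := dvd_sub h' (dvd_trans hv (dvd_add hw hy))
    have e : w + y - (w - w' + (y - y')) = w' + y' := by ring
    rwa [e] at h1

theorem P_mul {a b : ℕ} (ha : 1 < a) (hb : 1 < b) (hab : a.Coprime b) (hPa : P a) (hPb : P b) :
    P (a * b) := by
  intro w0 x0 y0 z0 hE h3 h2
  have hadvd : (a : ℤ) ∣ ((a * b : ℕ) : ℤ) := by push_cast; exact Dvd.intro _ rfl
  have hbdvd : (b : ℤ) ∣ ((a * b : ℕ) : ℤ) := by push_cast; exact Dvd.intro_left _ rfl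
  obtain ⟨wa, xa, ya, za, a1, a2, a3, a4, a5, a6⟩ := hPa w0 x0 y0 z0 (dvd_trans hadvd hE)
    (fun h => h3 ⟨Dvd.dvd.mul_right h.1 b, h.2⟩) (fun h => h2 (Dvd.dvd.mul_right h b))
  obtain ⟨wb, xb, yb, zb, b1, b2, b3, b4, b5, b6⟩ := hPb w0 x0 y0 z0 (dvd_trans hbdvd hE)
    (fun h => h3 ⟨Dvd.dvd.mul_left h.1 a, h.2⟩) (fun h => h2 (Dvd.dvd.mul_left h a))
  have hcop : IsCoprime (a : ℤ) (b : ℤ) := Nat.isCoprime_iff_coprime.2 hab
  have hcop4 : IsCoprime ((a : ℤ) ^ 4) ((b : ℤ) ^ 4) := IsCoprime.pow hcop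
  obtain ⟨w, hwa, hwb⟩ := crt hcop4 wa wb
  obtain ⟨x, hxa, hxb⟩ := crt hcop4 xa xb
  obtain ⟨y, hya, hyb⟩ := crt hcop4 ya yb
  obtain ⟨z, hza, hzb⟩ := crt hcop4 za zb
  have haa : (a : ℤ) ∣ (a : ℤ) ^ 4 := dvd_pow_self _ (by norm_num)
  have hbb : (b : ℤ) ∣ (b : ℤ) ^ 4 := dvd_pow_self _ (by norm_num)
  have comb : ∀ u ua ub u0 : ℤ, (a : ℤ) ^ 4 ∣ u - ua → (b : ℤ) ^ 4 ∣ u - ub → (a : ℤ) ∣ ua - u0 →
      (b : ℤ) ∣ ub - u0 → ((a * b : ℕ) : ℤ) ∣ u - u0 := by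
    intro u ua ub u0 h1 h2 h3 h4
    push_cast
    apply hcop.mul_dvd
    · have := dvd_add (dvd_trans haa h1) h3
      simpa using this
    · have := dvd_add (dvd_trans hbb h2) h4
      simpa using this
  refine ⟨w, x, y, z, comb _ _ _ _ hwa hwb a1 b1, comb _ _ _ _ hxa hxb a2 b2,
    comb _ _ _ _ hya hyb a3 b3, comb _ _ _ _ hza hzb a4 b4, ?_, ?_⟩
  · push_cast
    rw [mul_pow]
    apply hcop4.mul_dvd
    · have := dvd_add (E_congr hwa hxa hya hza) a5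
      simpa using this
    · have := dvd_add (E_congr hwb hxb hyb hzb) b5
      simpa using this
  · intro p hp hpab
    have ha0 : a ≠ 0 := by omega
    have hb0 : b ≠ 0 := by omega
    rw [Nat.factorization_mul ha0 hb0]
    rcases (hp.dvd_mul).1 hpab with hpa | hpb
    · have hpb : ¬ p ∣ b := fun h => hp.one_lt.ne' (Nat.dvd_one.1 (hab ▸ Nat.dvd_gcd hpa h))
      have : b.factorization p = 0 := Nat.factorization_eq_zero_of_not_dvd hpb
      simp only [Finsupp.coe_add, Pi.add_apply, this, add_zero]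
      exact transfer ha0 (dvd_refl _) hwa hxa hya hp hpa (a6 p hp hpa)
    · have hpa : ¬ p ∣ a := fun h => hp.one_lt.ne' (Nat.dvd_one.1 (hab ▸ Nat.dvd_gcd h hpb))
      have : a.factorization p = 0 := Nat.factorization_eq_zero_of_not_dvd hpa
      simp only [Finsupp.coe_add, Pi.add_apply, this, zero_add]
      exact transfer hb0 (dvd_refl _) hwb hxb hyb hp hpb (b6 p hp hpb)

theorem P_all (m : ℕ) (hm : 0 < m) : P m := by
  induction m using Nat.recOnPosPrimePosCoprime with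
  | prime_pow p n hp hn => exact P_prime_pow hp hn
  | zero => exact absurd hm (lt_irrefl _)
  | one => exact P_one
  | coprime a b ha hb hab iha ihb =>
    exact P_mul ha hb hab (iha (by omega)) (ihb (by omega))

end Pool.Agent.H7.Local
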