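import Mathlib

namespace Pool.Agent.H7.Mordell

/-- `(w, x, y, z)` is a solution of Mordell's equation `1/w + 1/x + 1/y + 1/z + 1/(wxyz) = 0`
in nonzero integers. -/
def IsSolution (w x y z : ℤ) : Prop :=
  w ≠ 0 ∧ x ≠ 0 ∧ y ≠ 0 ∧ z ≠ 0 ∧
    (1 / (w : ℚ) + 1 / (x : ℚ) + 1 / (y : ℚ) + 1 / (z : ℚ) + 1 / ((w : ℚ) * x * y * z) = 0)

/-- No two of the four integers are opposite. -/
def NoOpposite (w x y z : ℤ) : Prop :=
  w + x ≠ 0 ∧ w + y ≠ 0 ∧ w + z ≠ 0 ∧ x + y ≠ 0 ∧ x + z ≠ 0 ∧ y + z ≠ 0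

theorem isSolution_iff (w x y z : ℤ) :
    IsSolution w x y z ↔ w ≠ 0 ∧ x ≠ 0 ∧ y ≠ 0 ∧ z ≠ 0 ∧
      x * y * z + w * y * z + w * x * z + w * x * y + 1 = 0 := by
  unfold IsSolution
  constructor
  · rintro ⟨hw, hx, hy, hz, h⟩
    refine ⟨hw, hx, hy, hz, ?_⟩
    have hw' : (w : ℚ) ≠ 0 := by exact_mod_cast hw
    have hx' : (x : ℚ) ≠ 0 := by exact_mod_cast hx
    have hy' : (y : ℚ) ≠ 0 := by exact_mod_cast hy
    have hz' : (z : ℚ) ≠ 0 := by exact_mod_cast hz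
    field_simp at h
    have h2 : (x : ℚ) * y * z + w * y * z + w * x * z + w * x * y + 1 = 0 := by linarith
    exact_mod_cast h2
  · rintro ⟨hw, hx, hy, hz, h⟩
    refine ⟨hw, hx, hy, hz, ?_⟩
    have hw' : (w : ℚ) ≠ 0 := by exact_mod_cast hw
    have hx' : (x : ℚ) ≠ 0 := by exact_mod_cast hx
    have hy' : (y : ℚ) ≠ 0 := by exact_mod_cast hy
    have hz' : (z : ℚ) ≠ 0 := by exact_mod_cast hz
    have h2 : (x : ℚ) * y * z + w * y * z + w * x * z + w * x * y + 1 = 0 := by exact_mod_cast h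
    field_simp
    linarith

end Pool.Agent.H7.Mordell
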